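import Pool.Agent.Y213.T6.PlcV
import Pool.Agent.Y213.EC.Final
import Pool.Agent.TH954.Closure

/-! The Mordell-Weil sieve for the members of a family of closed subvarieties of `E ^ r`. -/

set_option autoImplicit false

namespace Pool.Agent.Y213.T6

open MvPolynomial NumberField Pool.Agent.H901R3.MS WeierstrassCurve IsDedekindDomain
open Pool.Agent.Y213.EC Pool.Agent.TH954 Pool.Agent.TH942

open Pool.Agent.W659.SA (vec)

open scoped LinearAlgebra.Projectivization

/-- reduction of the value of a polynomial at a place of any field -/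
theorem loc_valG {O R L k : Type} [CommRing O] [CommRing R] [Field L] [Field k] (w : Place L k)
    (j : O →+* L) (φ : O →+* k) (hw : ∀ x : O, j x ∈ w.A ∧ w.r (j x) = φ x)
    (ι : R →+* L) (ψ : R →+* k) (hι : ∀ x : R, ι x ∈ w.A ∧ w.r (ι x) = ψ x) {r n : ℕ}
    (V : Fin r → Fin 3 → L) (W : Fin r → Fin 3 → k)
    (c : Fin r → L) (hc : ∀ i j, c i * V i j ∈ w.A ∧ w.r (c i * V i j) = W i j)
    (F : Pol O r n) (d : Fin r → ℕ) (hF : MHomog F d) (t : Fin n → R) :
    (∏ i, c i ^ d i) * vl j F V (fun i => ι (t i)) ∈ w.A ∧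
    w.r ((∏ i, c i ^ d i) * vl j F V (fun i => ι (t i))) = vl φ F W (fun i => ψ (t i)) := by
  let ψ' : O →+* w.A :=
    { toFun := fun x => ⟨j x, (hw x).1⟩
      map_one' := by ext; simp
      map_mul' := fun x y => by ext; simp
      map_zero' := by ext; simp
      map_add' := fun x y => by ext; simp }
  have hψ1 : w.A.subtype.comp ψ' = j := by
    ext x
    rfl
  have hψ2 : w.ρ.comp ψ' = φ := by
    ext x
    have h1 := (hw x).2
    rw [w.r_of (hw x).1] at h1
    exact h1
  set V' : Fin r → Fin 3 → w.A := fun i j => ⟨c i * V i j, (hc i j).1⟩ with hV'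
  set x : w.A := vl ψ' F V' (fun i => ⟨ι (t i), (hι (t i)).1⟩) with hx
  have hxK : (x : L) = (∏ i, c i ^ d i) * vl j F V (fun i => ι (t i)) := by
    have h1 := vl_map ψ' w.A.subtype F V' (fun i => ⟨ι (t i), (hι (t i)).1⟩)
    have h2 : w.A.subtype x = (x : L) := rfl
    rw [← h2, hx, h1, hψ1, ← vl_scale _ F d hF]
    rfl
  have hval : w.ρ x = vl φ F W (fun i => ψ (t i)) := by
    rw [hx, vl_map, hψ2]
    congr 1
    · funext i j
      have h3 := (hc i j).2
      rw [w.r_of (hc i j).1] at h3
      exact h3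
    · funext i
      have h3 := (hι (t i)).2
      rw [w.r_of (hι (t i)).1] at h3
      exact h3
  rw [← hxK]
  exact ⟨x.2, by rw [w.r_of x.2]; exact hval⟩

/-- reduction of the points, the curve being given up to equality -/
theorem exists_redW {L k : Type} [Field L] [Field k] [DecidableEq L] [DecidableEq k]
    (w : Place L k) {a b : L} {a' b' : k} (ha : a ∈ w.A) (hb : b ∈ w.A) (ha' : w.r a = a')
    (hb' : w.r b = b') (hd : Disc a' b') (W : WeierstrassCurve L) (hW : W = CV a b) :
    ∃ red : W.toAffine.Point →+ Pt a' b',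
      (∀ (x y : L) (h : W.toAffine.Nonsingular x y), x ∉ w.A →
        red (Affine.Point.some x y h) = 0) ∧
      ∀ P : W.toAffine.Point, ∃ u : L, u ≠ 0 ∧ ∀ j, u * crd P j ∈ w.A ∧
        w.r (u * crd P j) = rep (red P) j := by
  subst hW
  obtain ⟨red, hred⟩ := exists_red w ha hb ha' hb' hd
  refine ⟨red, hred.2.1, fun P => ?_⟩
  obtain ⟨u, hu, h⟩ := rep_red w ha hb ha' hb' hred P
  refine ⟨u, hu, fun j => ?_⟩
  have h1 : crd P j = rep P j := by
    rcases P with _ | ⟨x, y, h⟩ <;> rfl
  rw [h1]
  exact h j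

/-- the equations of the member of the family with the parameters `t` -/
noncomputable def mbr {K : Type} [Field K] {r n q : ℕ} (G : Fin q → Pol (𝓞 K) r n)
    (t : Fin n → K) : Set (MvPolynomial (Fin r × Fin 3) K) :=
  Set.range fun e => eval₂ (C.comp (algebraMap (𝓞 K) K)) (Sum.elim X (fun i => C (t i))) (G e)

theorem onX_mbr {K : Type} [Field K] {r n q : ℕ} (G : Fin q → Pol (𝓞 K) r n) (t : Fin n → K)
    {L : Type} [Field L] [Algebra K L] (u : Fin r → Fin 3 → L) :
    OnX (mbr G t) u ↔ ∀ e, vl ((algebraMap K L).comp (algebraMap (𝓞 K) K)) (G e) u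
      (fun i => algebraMap K L (t i)) = 0 := by
  unfold OnX mbr
  rw [Set.forall_mem_range]
  refine forall_congr' fun e => ?_
  have h1 : aeval (fun p : Fin r × Fin 3 => u p.1 p.2)
      (eval₂ (C.comp (algebraMap (𝓞 K) K)) (Sum.elim X (fun i => C (t i))) (G e)) =
      vl ((algebraMap K L).comp (algebraMap (𝓞 K) K)) (G e) u
        (fun i => algebraMap K L (t i)) := by
    rw [← AlgHom.coe_toRingHom, hom_eval₂]
    unfold vl
    congr 1
    · ext x
      simp
    · funext x
      rcases x with ij | i <;> simp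
  rw [h1]

theorem bc_eq {K : Type} [Field K] (a b : K) (L : Type) [Field L] [Algebra K L] :
    (sw a b).baseChange L = CV (algebraMap K L a) (algebraMap K L b) := by
  ext <;> simp [sw, CV, WeierstrassCurve.baseChange, WeierstrassCurve.map]

end Pool.Agent.Y213.T6
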