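import Pool.Agent.Y213.T6.Sec

/-! Most members of a family have no locally geometric section: the theorem. -/

set_option autoImplicit false

namespace Pool.Agent.Y213.T6

open MvPolynomial NumberField Pool.Agent.H901R3.MS WeierstrassCurve IsDedekindDomain
open Pool.Agent.Y213.EC Pool.Agent.TH954 Pool.Agent.TH942 Pool.Agent.W620.SC

open scoped LinearAlgebra.Projectivization

theorem mbr_multiHom {K : Type} [Field K] {r n q : ℕ} (G : Fin q → Pol (𝓞 K) r n)
    (d : Fin q → Fin r → ℕ) (hG : ∀ e, MHomog (G e) (d e)) (t : Fin n → K) :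
    ∀ f ∈ mbr G t, ∃ d, MultiHom d f := by
  classical
  rintro _ ⟨e, rfl⟩
  refine ⟨d e, ?_⟩
  have h1 : eval₂ (C.comp (algebraMap (𝓞 K) K)) (Sum.elim X (fun i => C (t i))) (G e) =
      ∑ m ∈ (G e).support, monomial
        (Finsupp.equivFunOnFinite.symm fun ij : Fin r × Fin 3 => m (Sum.inl ij))
        (algebraMap (𝓞 K) K (coeff m (G e)) * ∏ k, t k ^ m (Sum.inr k)) := by
    rw [eval₂_eq']
    refine Finset.sum_congr rfl fun m _ => ?_
    rw [Fintype.prod_sum_type, monomial_eq, Finsupp.prod_fintype _ _ (fun i => by simp)]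
    simp only [RingHom.comp_apply, C_mul, map_prod, map_pow, Sum.elim_inl, Sum.elim_inr,
      Finsupp.equivFunOnFinite_symm_apply_apply]
    ring
  intro m hm i
  simp only at hm
  rw [h1] at hm
  have h2 := support_sum hm
  rw [Finset.mem_biUnion] at h2
  obtain ⟨m', hm', h3⟩ := h2
  have h4 := support_monomial_subset h3
  rw [Finset.mem_singleton] at h4
  rw [h4]
  exact hG e m' hm' i

open scoped Classical in
theorem section_main (K : Type) [Field K] [NumberField K] (r n q : ℕ) (a b : 𝓞 K)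
    (hd : 4 * a ^ 3 + 27 * b ^ 2 ≠ 0) (M₀ : ℕ) (hM1 : 1 ≤ M₀)
    (hM : ShaKilledBy (sw (a : K) (b : K)) M₀) (G : Fin q → Pol (𝓞 K) r n)
    (d : Fin q → Fin r → ℕ) (k : Fin q → ℕ) (hG : ∀ e, MHomog (G e) (d e))
    (hX : ∀ e, XHomog (G e) (k e)) (D : ℕ) (σ : K →+* ℂ)
    (hns : ∀ V : Fin r → Fin 3 → ℂ, (∀ i, OnK (σ a) (σ b) (V i)) →
      (Fib (toC σ) G V).encard ≤ D) (ε : ℝ) (hε : 0 < ε) :
    ∃ C : ℝ, ∀ B : ℝ, 1 ≤ B → ∃ Z : Finset (ℙ K (Fin n → K)), (Z.card : ℝ) ≤ C * B ^ ε ∧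
      ∀ y : ℙ K (Fin n → K), y.mulHeight ≤ B → y ∉ Z →
      ∀ (F Ω M B' : Type) [Field F] [Field Ω] [Field M] [Field B'] [Algebra K F] [Algebra F Ω]
        [Algebra K Ω] [Algebra F M] [Algebra K M] [Algebra K B'] [IsScalarTower K F Ω]
        [IsScalarTower K F M] [IsAlgClosure F Ω] [IsAlgClosure K B']
        (U : Set (ValuationSubring F)) (_ : ∀ O ∈ U, ∀ c : K, algebraMap K F c ∈ O)
        (e : M →ₐ[F] Ω) (_ : unramified F Ω U ≤ e.fieldRange)
        (P : Fin r → ((sw (a : K) (b : K)).baseChange F).toAffine.Point)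
        (_ : OnX (mbr G y.rep) (fun i => crd (P i))) (s : GalSection K F M B')
        (p : ∀ v : HeightOneSpectrum (𝓞 K), Plc K M (AlgebraicClosure (v.adicCompletion K))),
        ¬ ∀ v, s.GivenBy (v.adicCompletion K) (p v) := by
  obtain ⟨C, hC, H⟩ := sieve_main K r n q a b hd G d k hG hX D σ hns 0 ε hε
  refine ⟨C, fun B hB => ?_⟩
  obtain ⟨L, T, Z, hL, -, -, hZ, hmain⟩ := H B hB
  refine ⟨Z, hZ, ?_⟩
  intro y hyB hyZ F Ω M B' _ _ _ _ _ _ _ _ _ _ _ _ _ _ U hU e he P hPS s p hp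
  apply hyZ
  obtain ⟨P0, Pv, hPv, hz⟩ := sec_near (shortInt_sw a b hd) hM1 hM (mbr G y.rep)
    (mbr_multiHom G d hG y.rep) U hU e he P hPS s p hp L hL
  refine hmain y hyB ⟨P0, Pv, fun v _ => hPv v, fun v _ i => ?_⟩
  obtain ⟨z, hz⟩ := hz v i
  refine ⟨z, 0, 2, one_lt_two, ?_, ?_⟩
  · intro x y h h0
    exact absurd h0.symm (Affine.Point.some_ne_zero h)
  · rw [← hz]
    abel

end Pool.Agent.Y213.T6
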