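import Pool.Agent.Y213.T6.Cl
import Pool.Agent.TH954.DescentMain

/-! The Selmer sets of most members of a family are empty. -/

set_option autoImplicit false

namespace Pool.Agent.Y213.T6

open MvPolynomial NumberField Pool.Agent.H901R3.MS WeierstrassCurve IsDedekindDomain
open Pool.Agent.Y213.EC Pool.Agent.TH954 Pool.Agent.TH942

open scoped LinearAlgebra.Projectivization

open scoped Classical in
theorem survives_of_cover {K : Type} [Field K] [NumberField K] (a b : 𝓞 K)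
    {r n q : ℕ} (G : Fin q → Pol (𝓞 K) r n)
    (T : Finset (HeightOneSpectrum (𝓞 K))) (M L : ℕ) (t : Fin n → K)
    (hM : ShaKilledBy (sw (a : K) (b : K)) M)
    (ξ : Fin r → (AlgebraicClosure K ≃ₐ[K] AlgebraicClosure K) → AlgPt (sw (a : K) (b : K)) K)
    (hξ : ∀ i, IsCocycle (sw (a : K) (b : K)) (ξ i)) (hξN : ∀ i σ, (M * L) • ξ i σ = 0)
    (hfinite : ∀ v : HeightOneSpectrum (𝓞 K),
      CoverPoint (sw (a : K) (b : K)) (mbr G t) (M * L) ξ (v.adicCompletion K))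
    (hinf : ∀ w : InfinitePlace K,
      CoverPoint (sw (a : K) (b : K)) (mbr G t) (M * L) ξ w.Completion) :
    Survives (a : K) (b : K) G T L t := by
  -- the classes in the Tate-Shafarevich group
  have hRex : ∀ i, ∃ R : AlgPt (sw (a : K) (b : K)) K, ∀ σ,
      M • ξ i σ = act (sw (a : K) (b : K)) σ R - R := by
    intro i
    refine hM (ξ i) (hξ i) (fun v => ?_) (fun w => ?_)
    · obtain ⟨ι, P, Q, -, -, h⟩ := hfinite v
      exact ⟨ι, Q i, fun σ τ hστ => h i σ τ hστ⟩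
    · obtain ⟨ι, P, Q, -, -, h⟩ := hinf w
      exact ⟨ι, Q i, fun σ τ hστ => h i σ τ hστ⟩
  choose R hR using hRex
  have hyex : ∀ i, ∃ y : SPt (a : K) (b : K), incl (sw (a : K) (b : K)) K y = L • R i := by
    intro i
    refine exists_of_fixed (L := K) (L • R i) (fun σ => ?_)
    have e1 : act (sw (a : K) (b : K)) σ (R i) = R i + M • ξ i σ := by
      rw [hR i σ]
      abel
    rw [act_nsmul, e1, ns_add, ← ns_mul, mul_comm L M, hξN, add_zero]
  choose y hy using hyex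
  choose ιv P Q hPX hPQ hQξ using hfinite
  have hz : ∀ v i, ∃ z, P v i - locHom (L := v.adicCompletion K) (sw (a : K) (b : K)) (y i) =
      L • z := by
    intro v i
    have : CharZero (v.adicCompletion K) :=
      charZero_of_injective_algebraMap (algebraMap K (v.adicCompletion K)).injective
    exact local_step (M := M) (N := L) (Q := Q v i) (ι := ιv v) (R := R i) (hPQ v i)
      (fun σ τ h => hQξ v i σ τ h) (hR i) (hy i)
  refine ⟨y, P, fun v _ => hPX v, fun v _ i => ?_⟩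
  obtain ⟨z, hz⟩ := hz v i
  refine ⟨z, 0, 2, one_lt_two, ?_, ?_⟩
  · intro x y h h0
    exact absurd h0.symm (Affine.Point.some_ne_zero h)
  · rw [← hz]
    abel

open scoped Classical in
theorem sel_main (K : Type) [Field K] [NumberField K] (r n q : ℕ) (a b : 𝓞 K)
    (hd : 4 * a ^ 3 + 27 * b ^ 2 ≠ 0) (M : ℕ) (hM1 : 1 ≤ M)
    (hM : ShaKilledBy (sw (a : K) (b : K)) M) (G : Fin q → Pol (𝓞 K) r n)
    (d : Fin q → Fin r → ℕ) (k : Fin q → ℕ) (hG : ∀ e, MHomog (G e) (d e))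
    (hX : ∀ e, XHomog (G e) (k e)) (D : ℕ) (σ : K →+* ℂ)
    (hns : ∀ V : Fin r → Fin 3 → ℂ, (∀ i, OnK (σ a) (σ b) (V i)) →
      (Fib (toC σ) G V).encard ≤ D) (ε : ℝ) (hε : 0 < ε) :
    ∃ C : ℝ, ∀ B : ℝ, 1 ≤ B → ∃ (N : ℕ) (Z : Finset (ℙ K (Fin n → K))), 1 ≤ N ∧
      (N : ℝ) ≤ C * B ^ ε ∧ (Z.card : ℝ) ≤ C * B ^ ε ∧
      ∀ y : ℙ K (Fin n → K), y.mulHeight ≤ B → y ∉ Z →
        ¬ ∃ ξ : Fin r → (AlgebraicClosure K ≃ₐ[K] AlgebraicClosure K) →
            AlgPt (sw (a : K) (b : K)) K,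
          (∀ i, IsCocycle (sw (a : K) (b : K)) (ξ i)) ∧ (∀ i σ, N • ξ i σ = 0) ∧
          (∀ v : HeightOneSpectrum (𝓞 K),
            CoverPoint (sw (a : K) (b : K)) (mbr G y.rep) N ξ (v.adicCompletion K)) ∧
          ∀ w : InfinitePlace K,
            CoverPoint (sw (a : K) (b : K)) (mbr G y.rep) N ξ w.Completion := by
  obtain ⟨C, hC, H⟩ := sieve_main K r n q a b hd G d k hG hX D σ hns 0 ε hε
  have hM0 : (1 : ℝ) ≤ M := by exact_mod_cast hM1
  refine ⟨M * C, fun B hB => ?_⟩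
  obtain ⟨L, T, Z, hL, hLB, -, hZ, hmain⟩ := H B hB
  have hp : 0 ≤ C * B ^ ε := by
    have : 0 ≤ B := by linarith
    positivity
  refine ⟨M * L, Z, Nat.mul_pos hM1 hL, ?_, ?_, ?_⟩
  · push_cast
    rw [mul_assoc]
    exact mul_le_mul_of_nonneg_left hLB (by linarith)
  · refine hZ.trans ?_
    rw [mul_assoc]
    nlinarith
  · rintro y hyB hyZ ⟨ξ, hξ, hξN, hfi, hin⟩
    exact hyZ (hmain y hyB (survives_of_cover a b G T M L y.rep hM ξ hξ hξN hfi hin))

end Pool.Agent.Y213.T6
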