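import Pool.Agent.Y213.T6.CoreH
import Pool.Agent.Y213.T6.SecMain
import Pool.Agent.Y213.T6.Sel

/-! Base point free families: heights, closures and sections. -/

set_option autoImplicit false

namespace Pool.Agent.Y213.T6

open MvPolynomial NumberField Pool.Agent.H901R3.MS WeierstrassCurve IsDedekindDomain
open Pool.Agent.Y213.EC Pool.Agent.TH954 Pool.Agent.TH942 Pool.Agent.W620.SC

open Pool.Agent.W659.SA (vec)

open scoped LinearAlgebra.Projectivization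

theorem sieve_hyp (K : Type) [Field K] [NumberField K] (r n q : ℕ) (a b : 𝓞 K)
    (hd : 4 * a ^ 3 + 27 * b ^ 2 ≠ 0) (G : Fin q → Pol (𝓞 K) r (n + 1))
    (d : Fin q → Fin r → ℕ) (k : Fin q → ℕ) (hG : ∀ e, MHomog (G e) (d e))
    (hX : ∀ e, XHomog (G e) (k e)) (k' : ℕ) (hk : ∀ e, k e ≤ k') (σ : K →+* ℂ)
    (hns : ∀ V : Fin r → Fin 3 → ℂ, (∀ i, OnK (σ a) (σ b) (V i)) → Fib (toC σ) G V ≠ Set.univ)
    (p₂ : ℕ) (ε : ℝ) (hε : 0 < ε) :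
    ∃ C : ℝ, 0 < C ∧ ∀ B : ℝ, 1 ≤ B → ∃ (L : ℕ) (T : Finset (HeightOneSpectrum (𝓞 K)))
      (FF : Finset (MvPolynomial (Fin (n + 1)) K)),
      1 ≤ L ∧ (L : ℝ) ≤ C * B ^ ε ∧ (∀ v ∈ T, p₂ ≤ Ideal.absNorm v.asIdeal) ∧
      (FF.card : ℝ) ≤ C * B ^ ε ∧ (∀ f ∈ FF, f ≠ 0 ∧ f.IsHomogeneous k') ∧
      ∀ y : ℙ K (Fin (n + 1) → K), y.mulHeight ≤ B →
        Survives (a : K) (b : K) G T L y.rep → ∃ f ∈ FF, eval y.rep f = 0 := by
  classical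
  have hdK : Disc (a : K) (b : K) := by
    intro h
    apply hd
    have h1 : (2 * (4 * a ^ 3 + 27 * b ^ 2) : 𝓞 K) = 0 := by
      apply RingOfIntegers.ext
      have h2 : ((2 * (4 * a ^ 3 + 27 * b ^ 2) : 𝓞 K) : K) =
          2 * (4 * (a : K) ^ 3 + 27 * (b : K) ^ 2) := by
        simp only [map_mul, map_add, map_pow, map_ofNat]
      rw [h2]
      exact h
    exact (mul_eq_zero.1 h1).resolve_left two_ne_zero
  obtain ⟨N, ω, C, hC0, hC⟩ := reduce K (n + 1)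
  set ε' : ℝ := ε / (((n + 1 : ℕ) : ℝ) + 1) with hε'
  have hε'0 : 0 < ε' := by positivity
  obtain ⟨H₀, hH₀, hmain⟩ := core_hyp K N ω r n q a b hdK G d k k' hk hG hX σ (by
    intro V hV
    have h1 := hns V hV
    rw [Set.ne_univ_iff_exists_notMem] at h1
    obtain ⟨y, hy⟩ := h1
    by_contra hcon
    push Not at hcon
    apply hy
    intro e
    rw [vl_eq, hcon e, map_zero]) p₂ ε' hε'0
  refine ⟨(C + 1 + H₀) ^ ε', by positivity, fun B hB => ?_⟩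
  set H : ℕ := ⌈C * B ^ (n + 1 + 1)⌉₊ + H₀ with hH
  have hB' : (1 : ℝ) ≤ B ^ (n + 1 + 1) := one_le_pow₀ hB
  have hHle : (H : ℝ) ≤ (C + 1 + H₀) * B ^ (n + 1 + 1) := by
    have h1 := (Nat.ceil_lt_add_one (by positivity : 0 ≤ C * B ^ (n + 1 + 1))).le
    have h2 : (0 : ℝ) ≤ H₀ := Nat.cast_nonneg _
    rw [hH]
    push_cast
    nlinarith
  have hHge : C * B ^ (n + 1 + 1) ≤ H := by
    rw [hH]
    push_cast
    have h1 := Nat.le_ceil (C * B ^ (n + 1 + 1))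
    have h2 : (0 : ℝ) ≤ H₀ := Nat.cast_nonneg _
    linarith
  have hbd := rpow_bound (n + 1) C B ε hC0 hB hε H₀ H hHle
  obtain ⟨L, T, hL, hLH, hT, FF, hFF1, hFF2, hFF3⟩ := hmain H (by omega)
  refine ⟨L, T, FF, hL, hLH.trans hbd, hT, hFF1.trans hbd, hFF2, ?_⟩
  rintro y hyB ⟨P, x, hx, hP⟩
  obtain ⟨c, u, hu, hcu, hcB⟩ := hC B y hyB
  obtain ⟨f, hf, hf0⟩ := hFF3 c (by
    intro i
    have h1 : |(c i : ℝ)| ≤ H := (hcB i).trans hHge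
    exact_mod_cast h1) ⟨P, x, fun v hv => mbr_scale G k hX y.rep _ u (fun i => hcu i) _
      (hx v hv), hP⟩
  refine ⟨f, hf, ?_⟩
  have h1 : (fun i => ((vec ω c i : 𝓞 K) : K)) = u • y.rep := by
    funext i
    rw [hcu i]
    rfl
  rw [h1, eval_smul f (hFF2 f hf).2] at hf0
  rcases mul_eq_zero.1 hf0 with h2 | h2
  · exact absurd h2 (pow_ne_zero _ hu)
  · exact h2

theorem closure_hyp (K : Type) [Field K] [NumberField K] (r n q : ℕ) (a b : 𝓞 K)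
    (hd : 4 * a ^ 3 + 27 * b ^ 2 ≠ 0) (G : Fin q → Pol (𝓞 K) r (n + 1))
    (d : Fin q → Fin r → ℕ) (k : Fin q → ℕ) (hG : ∀ e, MHomog (G e) (d e))
    (hX : ∀ e, XHomog (G e) (k e)) (k' : ℕ) (hk : ∀ e, k e ≤ k') (σ : K →+* ℂ)
    (hns : ∀ V : Fin r → Fin 3 → ℂ, (∀ i, OnK (σ a) (σ b) (V i)) → Fib (toC σ) G V ≠ Set.univ)
    (Gb : Set (HeightOneSpectrum (𝓞 K))) (hGb : Gb.Finite) (ε : ℝ) (hε : 0 < ε) :
    ∃ C : ℝ, ∀ B : ℝ, 1 ≤ B → ∃ FF : Finset (MvPolynomial (Fin (n + 1)) K),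
      (FF.card : ℝ) ≤ C * B ^ ε ∧ (∀ f ∈ FF, f ≠ 0 ∧ f.IsHomogeneous k') ∧
      ∀ y : ℙ K (Fin (n + 1) → K), y.mulHeight ≤ B →
        (∃ x ∈ adelicClosure (E := sw (a : K) (b : K)) (n := r) Gb Set.univ,
          ∀ v, OnX (mbr G y.rep) (fun i => crd (x v i))) → ∃ f ∈ FF, eval y.rep f = 0 := by
  classical
  obtain ⟨C, hC, H⟩ := sieve_hyp K r n q a b hd G d k hG hX k' hk σ hns
    (∑ v ∈ hGb.toFinset, Ideal.absNorm v.asIdeal + 1) ε hε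
  refine ⟨C, fun B hB => ?_⟩
  obtain ⟨L, T, FF, -, -, hT, hFF1, hFF2, hmain⟩ := H B hB
  have hTG : ∀ v ∈ T, v ∉ Gb := by
    intro v hv hvG
    have h1 := hT v hv
    have h2 : Ideal.absNorm v.asIdeal ≤ ∑ v ∈ hGb.toFinset, Ideal.absNorm v.asIdeal :=
      Finset.single_le_sum (f := fun v : HeightOneSpectrum (𝓞 K) => Ideal.absNorm v.asIdeal)
        (fun _ _ => Nat.zero_le _) (hGb.mem_toFinset.2 hvG)
    omega
  refine ⟨FF, hFF1, hFF2, ?_⟩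
  rintro y hyB ⟨x, hx, hxy⟩
  exact hmain y hyB (survives_of_closure a b hd G Gb T hTG L y.rep x hx hxy)

open scoped Classical in
theorem section_hyp (K : Type) [Field K] [NumberField K] (r n q : ℕ) (a b : 𝓞 K)
    (hd : 4 * a ^ 3 + 27 * b ^ 2 ≠ 0) (M₀ : ℕ) (hM1 : 1 ≤ M₀)
    (hM : ShaKilledBy (sw (a : K) (b : K)) M₀) (G : Fin q → Pol (𝓞 K) r (n + 1))
    (d : Fin q → Fin r → ℕ) (k : Fin q → ℕ) (hG : ∀ e, MHomog (G e) (d e))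
    (hX : ∀ e, XHomog (G e) (k e)) (k' : ℕ) (hk : ∀ e, k e ≤ k') (σ : K →+* ℂ)
    (hns : ∀ V : Fin r → Fin 3 → ℂ, (∀ i, OnK (σ a) (σ b) (V i)) → Fib (toC σ) G V ≠ Set.univ)
    (ε : ℝ) (hε : 0 < ε) :
    ∃ C : ℝ, ∀ B : ℝ, 1 ≤ B → ∃ FF : Finset (MvPolynomial (Fin (n + 1)) K),
      (FF.card : ℝ) ≤ C * B ^ ε ∧ (∀ f ∈ FF, f ≠ 0 ∧ f.IsHomogeneous k') ∧
      ∀ y : ℙ K (Fin (n + 1) → K), y.mulHeight ≤ B → (∀ f ∈ FF, eval y.rep f ≠ 0) →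
      ∀ (F Ω M B' : Type) [Field F] [Field Ω] [Field M] [Field B'] [Algebra K F] [Algebra F Ω]
        [Algebra K Ω] [Algebra F M] [Algebra K M] [Algebra K B'] [IsScalarTower K F Ω]
        [IsScalarTower K F M] [IsAlgClosure F Ω] [IsAlgClosure K B']
        (U : Set (ValuationSubring F)) (_ : ∀ O ∈ U, ∀ c : K, algebraMap K F c ∈ O)
        (e : M →ₐ[F] Ω) (_ : unramified F Ω U ≤ e.fieldRange)
        (P : Fin r → ((sw (a : K) (b : K)).baseChange F).toAffine.Point)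
        (_ : OnX (mbr G y.rep) (fun i => crd (P i))) (s : GalSection K F M B')
        (p : ∀ v : HeightOneSpectrum (𝓞 K), Plc K M (AlgebraicClosure (v.adicCompletion K))),
        ¬ ∀ v, s.GivenBy (v.adicCompletion K) (p v) := by
  obtain ⟨C, hC, H⟩ := sieve_hyp K r n q a b hd G d k hG hX k' hk σ hns 0 ε hε
  refine ⟨C, fun B hB => ?_⟩
  obtain ⟨L, T, FF, hL, -, -, hFF1, hFF2, hmain⟩ := H B hB
  refine ⟨FF, hFF1, hFF2, ?_⟩
  intro y hyB hyF F Ω M B' _ _ _ _ _ _ _ _ _ _ _ _ _ _ U hU e he P hPS s p hp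
  obtain ⟨P0, Pv, hPv, hz⟩ := sec_near (shortInt_sw a b hd) hM1 hM (mbr G y.rep)
    (mbr_multiHom G d hG y.rep) U hU e he P hPS s p hp L hL
  obtain ⟨f, hf, hf0⟩ := hmain y hyB ⟨P0, Pv, fun v _ => hPv v, fun v _ i => by
    obtain ⟨z, hz⟩ := hz v i
    refine ⟨z, 0, 2, one_lt_two, ?_, ?_⟩
    · intro x y h h0
      exact absurd h0.symm (Affine.Point.some_ne_zero h)
    · rw [← hz]
      abel⟩
  exact hyF f hf hf0

open scoped Classical in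
theorem sel_hyp (K : Type) [Field K] [NumberField K] (r n q : ℕ) (a b : 𝓞 K)
    (hd : 4 * a ^ 3 + 27 * b ^ 2 ≠ 0) (M : ℕ) (hM1 : 1 ≤ M)
    (hM : ShaKilledBy (sw (a : K) (b : K)) M) (G : Fin q → Pol (𝓞 K) r (n + 1))
    (d : Fin q → Fin r → ℕ) (k : Fin q → ℕ) (hG : ∀ e, MHomog (G e) (d e))
    (hX : ∀ e, XHomog (G e) (k e)) (k' : ℕ) (hk : ∀ e, k e ≤ k') (σ : K →+* ℂ)
    (hns : ∀ V : Fin r → Fin 3 → ℂ, (∀ i, OnK (σ a) (σ b) (V i)) → Fib (toC σ) G V ≠ Set.univ)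
    (ε : ℝ) (hε : 0 < ε) :
    ∃ C : ℝ, ∀ B : ℝ, 1 ≤ B → ∃ (N : ℕ) (FF : Finset (MvPolynomial (Fin (n + 1)) K)), 1 ≤ N ∧
      (N : ℝ) ≤ C * B ^ ε ∧
      (FF.card : ℝ) ≤ C * B ^ ε ∧ (∀ f ∈ FF, f ≠ 0 ∧ f.IsHomogeneous k') ∧
      ∀ y : ℙ K (Fin (n + 1) → K), y.mulHeight ≤ B → (∀ f ∈ FF, eval y.rep f ≠ 0) →
        ¬ ∃ ξ : Fin r → (AlgebraicClosure K ≃ₐ[K] AlgebraicClosure K) →
            AlgPt (sw (a : K) (b : K)) K,
          (∀ i, IsCocycle (sw (a : K) (b : K)) (ξ i)) ∧ (∀ i σ, N • ξ i σ = 0) ∧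
          (∀ v : HeightOneSpectrum (𝓞 K),
            CoverPoint (sw (a : K) (b : K)) (mbr G y.rep) N ξ (v.adicCompletion K)) ∧
          ∀ w : InfinitePlace K,
            CoverPoint (sw (a : K) (b : K)) (mbr G y.rep) N ξ w.Completion := by
  obtain ⟨C, hC, H⟩ := sieve_hyp K r n q a b hd G d k hG hX k' hk σ hns 0 ε hε
  have hM0 : (1 : ℝ) ≤ M := by exact_mod_cast hM1
  refine ⟨M * C, fun B hB => ?_⟩
  obtain ⟨L, T, FF, hL, hLB, -, hFF1, hFF2, hmain⟩ := H B hB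
  have hp : 0 ≤ C * B ^ ε := by
    have : 0 ≤ B := by linarith
    positivity
  refine ⟨M * L, FF, Nat.mul_pos hM1 hL, ?_, ?_, hFF2, ?_⟩
  · push_cast
    rw [mul_assoc]
    exact mul_le_mul_of_nonneg_left hLB (by linarith)
  · refine hFF1.trans ?_
    rw [mul_assoc]
    nlinarith
  · rintro y hyB hyF ⟨ξ, hξ, hξN, hfi, hin⟩
    obtain ⟨f, hf, hf0⟩ := hmain y hyB
      (survives_of_cover a b G T M L y.rep hM ξ hξ hξN hfi hin)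
    exact hyF f hf hf0

end Pool.Agent.Y213.T6
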