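import Pool.Agent.Y213.T6.Fin

/-! The closure of the group of the rational points does not meet most members of a family. -/

set_option autoImplicit false

namespace Pool.Agent.Y213.T6

open MvPolynomial NumberField Pool.Agent.H901R3.MS WeierstrassCurve IsDedekindDomain
open Pool.Agent.Y213.EC Pool.Agent.TH954 Pool.Agent.TH942

open scoped LinearAlgebra.Projectivization

theorem shortInt_sw {K : Type} [Field K] [NumberField K] (a b : 𝓞 K)
    (hd : 4 * a ^ 3 + 27 * b ^ 2 ≠ 0) : ShortInt (sw (a : K) (b : K)) where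
  h1 := rfl
  h2 := rfl
  h3 := rfl
  ia := a.2
  ib := b.2
  disc := by
    intro h
    apply hd
    apply RingOfIntegers.ext
    have h2 : ((4 * a ^ 3 + 27 * b ^ 2 : 𝓞 K) : K) = 4 * (a : K) ^ 3 + 27 * (b : K) ^ 2 := by
      simp only [map_mul, map_add, map_pow, map_ofNat]
    rw [h2]
    exact h

open scoped Classical in
theorem survives_of_closure {K : Type} [Field K] [NumberField K] (a b : 𝓞 K)
    (hd : 4 * a ^ 3 + 27 * b ^ 2 ≠ 0) {r n q : ℕ} (G : Fin q → Pol (𝓞 K) r n)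
    (Gb : Set (HeightOneSpectrum (𝓞 K))) (T : Finset (HeightOneSpectrum (𝓞 K)))
    (hT : ∀ v ∈ T, v ∉ Gb) (L : ℕ) (t : Fin n → K)
    (x : AdelicPts (sw (a : K) (b : K)) r Gb)
    (hx : x ∈ adelicClosure (E := sw (a : K) (b : K)) Gb Set.univ)
    (hxt : ∀ v, OnX (mbr G t) (fun i => crd (x v i))) : Survives (a : K) (b : K) G T L t := by
  have hE := shortInt_sw a b hd
  have hch : ∀ v : HeightOneSpectrum (𝓞 K), ∃ d : ℝ, 0 < d ∧ d ≤ 1 ∧
      ∀ T1 T2 : ((sw (a : K) (b : K)).baseChange (v.adicCompletion K)).toAffine.Point,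
        (∀ j, ‖nc T1 j - nc T2 j‖ < d) → Big 2 (T1 - T2) := fun v =>
    (hE.si v).exists_near (two_ne v) (hE.disc_loc v) one_lt_two
  choose dd hdd0 hdd1 hdd using hch
  have hfin : ∃ δ : ℝ, 0 < δ ∧ δ ≤ 1 ∧ ∀ v ∈ T, δ ≤ dd v := by
    refine ⟨∏ v ∈ T, dd v, Finset.prod_pos (fun v _ => hdd0 v),
      Finset.prod_le_one (fun v _ => (hdd0 v).le) (fun v _ => hdd1 v), fun v hv => ?_⟩
    rw [← Finset.mul_prod_erase T dd hv]
    exact mul_le_of_le_one_right (hdd0 v).le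
      (Finset.prod_le_one (fun v _ => (hdd0 v).le) (fun v _ => hdd1 v))
  obtain ⟨δ, hδ0, hδ1, hδ⟩ := hfin
  obtain ⟨y, -, hyn⟩ := hx
    (T.preimage (Subtype.val : {v : HeightOneSpectrum (𝓞 K) // v ∉ Gb} → _)
      Subtype.val_injective.injOn) δ hδ0
  refine ⟨y, fun v => if h : v ∉ Gb then x ⟨v, h⟩ else fun _ => 0, fun v hv => ?_,
    fun v hv i => ?_⟩
  · have h := hT v hv
    simp only [h, not_false_eq_true, dif_pos]
    exact hxt ⟨v, h⟩
  · have h := hT v hv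
    have h1 := hyn ⟨v, h⟩ (Finset.mem_preimage.mpr hv) i
    rw [← crd_loc' (L := v.adicCompletion K) (sw (a : K) (b : K))] at h1
    refine ⟨0, x ⟨v, h⟩ i - locHom (L := v.adicCompletion K) (sw (a : K) (b : K)) (y i), 2,
      one_lt_two, ?_, ?_⟩
    · apply hdd v
      intro j
      exact (nc_of_near (hE.si v) hδ0 hδ1 h1 j).trans_le (hδ v hv)
    · simp only [h, not_false_eq_true, dif_pos]
      rw [smul_zero, add_zero]
      abel

theorem closure_main (K : Type) [Field K] [NumberField K] (r n q : ℕ) (a b : 𝓞 K)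
    (hd : 4 * a ^ 3 + 27 * b ^ 2 ≠ 0) (G : Fin q → Pol (𝓞 K) r n)
    (d : Fin q → Fin r → ℕ) (k : Fin q → ℕ) (hG : ∀ e, MHomog (G e) (d e))
    (hX : ∀ e, XHomog (G e) (k e)) (D : ℕ) (σ : K →+* ℂ)
    (hns : ∀ V : Fin r → Fin 3 → ℂ, (∀ i, OnK (σ a) (σ b) (V i)) →
      (Fib (toC σ) G V).encard ≤ D)
    (Gb : Set (HeightOneSpectrum (𝓞 K))) (hGb : Gb.Finite) (ε : ℝ) (hε : 0 < ε) :
    ∃ C : ℝ, ∀ B : ℝ, 1 ≤ B →
      {y : ℙ K (Fin n → K) | y.mulHeight ≤ B ∧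
        ∃ x ∈ adelicClosure (E := sw (a : K) (b : K)) (n := r) Gb Set.univ,
          ∀ v, OnX (mbr G y.rep) (fun i => crd (x v i))}.Finite ∧
      ({y : ℙ K (Fin n → K) | y.mulHeight ≤ B ∧
        ∃ x ∈ adelicClosure (E := sw (a : K) (b : K)) (n := r) Gb Set.univ,
          ∀ v, OnX (mbr G y.rep) (fun i => crd (x v i))}.ncard : ℝ) ≤ C * B ^ ε := by
  classical
  obtain ⟨C, hC, H⟩ := sieve_main K r n q a b hd G d k hG hX D σ hns
    (∑ v ∈ hGb.toFinset, Ideal.absNorm v.asIdeal + 1) ε hε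
  refine ⟨C, fun B hB => ?_⟩
  obtain ⟨L, T, Z, -, -, hT, hZ, hmain⟩ := H B hB
  have hTG : ∀ v ∈ T, v ∉ Gb := by
    intro v hv hvG
    have h1 := hT v hv
    have h2 : Ideal.absNorm v.asIdeal ≤ ∑ v ∈ hGb.toFinset, Ideal.absNorm v.asIdeal :=
      Finset.single_le_sum (f := fun v : HeightOneSpectrum (𝓞 K) => Ideal.absNorm v.asIdeal)
        (fun _ _ => Nat.zero_le _) (hGb.mem_toFinset.2 hvG)
    omega
  have hsub : {y : ℙ K (Fin n → K) | y.mulHeight ≤ B ∧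
        ∃ x ∈ adelicClosure (E := sw (a : K) (b : K)) (n := r) Gb Set.univ,
          ∀ v, OnX (mbr G y.rep) (fun i => crd (x v i))} ⊆ (Z : Set (ℙ K (Fin n → K))) := by
    rintro y ⟨hyB, x, hx, hxy⟩
    exact hmain y hyB (survives_of_closure a b hd G Gb T hTG L y.rep x hx hxy)
  refine ⟨Z.finite_toSet.subset hsub, ?_⟩
  have h1 := Set.ncard_le_ncard hsub Z.finite_toSet
  rw [Set.ncard_coe_finset] at h1
  exact (by exact_mod_cast h1 : (_ : ℝ) ≤ (Z.card : ℝ)).trans hZ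

end Pool.Agent.Y213.T6
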