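import Pool.Agent.Y213.T6.Sieve

/-! The Mordell-Weil sieve for the members of a family: the main estimate. -/

set_option autoImplicit false

namespace Pool.Agent.Y213.T6

open MvPolynomial NumberField Pool.Agent.H901R3.MS WeierstrassCurve IsDedekindDomain
open Pool.Agent.Y213.EC Pool.Agent.TH954 Pool.Agent.TH942

open Pool.Agent.W659.SA (vec)

open scoped LinearAlgebra.Projectivization

open scoped Classical in
/-- The member with the parameters `t` survives the sieve at the places in `T` with the modulus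
`L`: there are `K`-points `P i` of the curve and local points `x v` on the member which agree with
`P` modulo `L` and the kernel of the reduction. -/
def Survives {K : Type} [Field K] [NumberField K] (a b : K) {r n q : ℕ}
    (G : Fin q → Pol (𝓞 K) r n) (T : Finset (HeightOneSpectrum (𝓞 K))) (L : ℕ)
    (t : Fin n → K) : Prop :=
  ∃ (P : Fin r → SPt a b) (x : ∀ v : HeightOneSpectrum (𝓞 K),
      Fin r → ((sw a b).baseChange (v.adicCompletion K)).toAffine.Point),
    (∀ v ∈ T, OnX (mbr G t) (fun i => crd (x v i))) ∧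
    ∀ v ∈ T, ∀ i, ∃ (z w : ((sw a b).baseChange (v.adicCompletion K)).toAffine.Point) (R : ℝ),
      1 < R ∧ Big R w ∧ x v i = locHom (L := v.adicCompletion K) (sw a b) (P i) + L • z + w

theorem core_fin (K : Type) [Field K] [NumberField K] (N : ℕ) (ω : Module.Basis (Fin N) ℤ (𝓞 K))
    (r n q : ℕ) (a b : 𝓞 K) (hd : Disc (a : K) (b : K)) (G : Fin q → Pol (𝓞 K) r n)
    (d : Fin q → Fin r → ℕ) (hG : ∀ e, MHomog (G e) (d e)) (σ : K →+* ℂ) (D : ℕ)
    (hns : ∀ V : Fin r → Fin 3 → ℂ, (∀ i, OnK (σ a) (σ b) (V i)) → AtMost (toC σ) G V D)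
    (p₂ : ℕ) (ε : ℝ) (hε : 0 < ε) :
    ∃ H₀ : ℕ, 3 ≤ H₀ ∧ ∀ H : ℕ, H₀ ≤ H → ∃ (L : ℕ) (T : Finset (HeightOneSpectrum (𝓞 K))),
      1 ≤ L ∧ (L : ℝ) ≤ (H : ℝ) ^ ε ∧ (∀ v ∈ T, p₂ ≤ Ideal.absNorm v.asIdeal) ∧
      ∃ Z : Finset (ℙ K (Fin n → K)), (Z.card : ℝ) ≤ D * (H : ℝ) ^ ε ∧
      ∀ (c : Fin n × Fin N → ℤ) (h0 : (fun i => ((vec ω c i : 𝓞 K) : K)) ≠ 0),
        (∀ i, |c i| ≤ H) → Survives (a : K) (b : K) G T L (fun i => ((vec ω c i : 𝓞 K) : K)) →
        Projectivization.mk K _ h0 ∈ Z := by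
  classical
  have hFG : AddGroup.FG (SPt (a : K) (b : K)) := t_M1K K (a : K) (b : K) hd
  obtain ⟨R₀, hR⟩ := t_M2 (SPt (a : K) (b : K)) hFG
  obtain ⟨p₁, hp₁⟩ := trf K r n a b (Fin q) G σ D hns
  obtain ⟨C₀, hC1, hC⟩ := Pool.Agent.W305.SA.DETF.main K N ω n D
  obtain ⟨H₀, hH₀, hmain⟩ := primesE K a b hd (p₁ + p₂) (R₀ * r + 1) C₀ ε hε
  refine ⟨H₀, hH₀, fun H hH => ?_⟩
  obtain ⟨TT, L, hL, hT, hprod, hLR⟩ := hmain H hH
  obtain ⟨A, hAc, hAr⟩ := hR L hL
  choose κ₀ hκ₀ δ₀ hδ₀ using hAr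
  have hT' : ∀ p : TT, ∃ (v : HeightOneSpectrum (𝓞 K)) (_ : Fact p.1.Prime)
      (φ : 𝓞 K →+* ZMod p.1), v = hsp p.1 φ ∧ Disc (φ a) (φ b) ∧
      ∀ P : Pt (φ a) (φ b), L • P = 0 := by
    intro p
    obtain ⟨_, hF, φ, h1, h2⟩ := hT p.1 p.2
    exact ⟨hsp p.1 φ, hF, φ, rfl, h1, h2⟩
  choose vv hvv using hT'
  set T : Finset (HeightOneSpectrum (𝓞 K)) := Finset.univ.image vv with hTdef
  have hL1 : (1 : ℝ) ≤ L := by exact_mod_cast hL
  refine ⟨L, T, hL, ?_, ?_, ?_⟩
  · refine le_trans ?_ hLR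
    calc (L : ℝ) = (L : ℝ) ^ 1 := (pow_one _).symm
      _ ≤ (L : ℝ) ^ (R₀ * r + 1) := pow_le_pow_right₀ hL1 (by omega)
  · intro v hv
    rw [hTdef, Finset.mem_image] at hv
    obtain ⟨p, _, rfl⟩ := hv
    obtain ⟨hF, φ, hv', h1, h2⟩ := hvv p
    rw [hv']
    have h3 : ((Ideal.absNorm (hsp p.1 φ).asIdeal : ℕ) : 𝓞 K) ∈ (hsp p.1 φ).asIdeal :=
      Ideal.absNorm_mem _
    rw [mem_hsp, map_natCast, ZMod.natCast_eq_zero_iff] at h3
    have h4 : 0 < Ideal.absNorm (hsp p.1 φ).asIdeal := by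
      rw [Nat.pos_iff_ne_zero, Ne, Ideal.absNorm_eq_zero_iff]
      exact (hsp p.1 φ).ne_bot
    have h5 := (hT p.1 p.2).1
    exact (by omega : p₂ ≤ p.1).trans (Nat.le_of_dvd h4 h3)
  -- the points of a class
  let Pc : (Fin r → A) → Set (ℙ K (Fin n → K)) := fun κ => {y | ∃ c : Fin n × Fin N → ℤ,
    (∀ i, |c i| ≤ H) ∧
    ∃ h : (fun i => ((vec ω c i : 𝓞 K) : K)) ≠ 0, y = Projectivization.mk K _ h ∧
      ∃ (P : Fin r → SPt (a : K) (b : K)) (x : ∀ v : HeightOneSpectrum (𝓞 K),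
        Fin r → ((sw (a : K) (b : K)).baseChange (v.adicCompletion K)).toAffine.Point),
      (∀ v ∈ T, OnX (mbr G (fun i => ((vec ω c i : 𝓞 K) : K))) (fun i => crd (x v i))) ∧
      (∀ v ∈ T, ∀ i, ∃ (z w : ((sw (a : K) (b : K)).baseChange
        (v.adicCompletion K)).toAffine.Point) (R : ℝ), 1 < R ∧ Big R w ∧
        x v i = locHom (L := v.adicCompletion K) (sw (a : K) (b : K)) (P i) + L • z + w) ∧
      ∀ i, κ i = ⟨κ₀ (P i), hκ₀ (P i)⟩}
  have key : ∀ κ : Fin r → A, ∃ Z : Finset (ℙ K (Fin n → K)), Z.card ≤ D ∧ Pc κ ⊆ Z := by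
    intro κ
    apply pick
    intro f hf
    choose c hc hne hmk P x hx hP hκ using hf
    have h1 : ∀ l, ∃ i, vec ω (c l) i ≠ 0 := by
      intro l
      obtain ⟨i, hi⟩ := Function.ne_iff.1 (hne l)
      refine ⟨i, fun h => hi ?_⟩
      simp only [h, Pi.zero_apply]
      simp
    obtain ⟨l, l', hll, z, hz⟩ := hC H TT (fun p hp => by
        obtain ⟨_, hF, _⟩ := hT p hp
        exact hF.out) hprod c hc h1 (by
      intro p hp
      obtain ⟨hF, φ, hv', hdφ, hkill⟩ := hvv ⟨p, hp⟩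
      have hp1 := (hT p hp).1
      simp only at φ hdφ hkill hF
      haveI := hF
      have hmem : hsp p φ ∈ T := by
        rw [hTdef, Finset.mem_image]
        exact ⟨⟨p, hp⟩, Finset.mem_univ _, hv'⟩
      obtain ⟨w, hw, hwA⟩ := exists_place_v p φ
      obtain ⟨red, hred1, hred2⟩ := exists_redW w
        (a := algebraMap K ((hsp p φ).adicCompletion K) (a : K))
        (b := algebraMap K ((hsp p φ).adicCompletion K) (b : K)) (a' := φ a) (b' := φ b)
        (hw a).1 (hw b).1 (hw a).2 (hw b).2 hdφ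
        ((sw (a : K) (b : K)).baseChange ((hsp p φ).adicCompletion K)) (bc_eq _ _ _)
      let redK : SPt (a : K) (b : K) →+ Pt (φ a) (φ b) :=
        red.comp (locHom (L := (hsp p φ).adicCompletion K) (sw (a : K) (b : K)))
      have hbig : ∀ (u : ((sw (a : K) (b : K)).baseChange
          ((hsp p φ).adicCompletion K)).toAffine.Point) (R : ℝ), 1 < R → Big R u →
          red u = 0 := by
        intro u R hR1 hu
        rcases u with _ | ⟨x, y, h⟩
        · exact map_zero red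
        · apply hred1
          intro hxA
          have h2 := hu x y h rfl
          have h3 := (hwA x).2 hxA
          linarith
      have hredx : ∀ l i, red (x l (hsp p φ) i) = redK (κ i).1 := by
        intro l i
        obtain ⟨z, u, R, hR1, hu, he⟩ := hP l (hsp p φ) hmem i
        have h2 : red (x l (hsp p φ) i) = redK (P l i) := by
          rw [he, map_add, map_add, map_nsmul, hkill, hbig u R hR1 hu, add_zero, add_zero]
          rfl
        have h3 : P l i = (κ₀ (P l i) : SPt (a : K) (b : K)) + L • δ₀ (P l i) := hδ₀ (P l i)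
        have h4 : redK (P l i) = redK (κ₀ (P l i)) := by
          conv_lhs => rw [h3]
          rw [map_add, map_nsmul, hkill, add_zero]
        rw [h2, h4, hκ l i]
      refine ⟨ZMod p, inferInstance, inferInstance, φ, ?_⟩
      by_cases h0 : ∃ l, ∀ i, φ (vec ω (c l) i) = 0
      · exact Or.inl h0
      right
      push Not at h0
      have h4 := hp₁ p hF.out (by omega) (ZMod p) φ (fun i => rep (redK (κ i).1))
        (fun i => onK_rep _)
        (fun l i => φ (vec ω (c l) i)) (fun l h => by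
          obtain ⟨i, hi⟩ := h0 l
          exact hi (congrFun h i)) (fun l e => by
          have h5 := (onX_mbr G _ _).1 (hx l (hsp p φ) hmem) e
          choose u hu0 hu using fun i => hred2 (x l (hsp p φ) i)
          have h6 := (loc_valG w ((algebraMap K ((hsp p φ).adicCompletion K)).comp
            (algebraMap (𝓞 K) K)) φ (fun x => hw x)
            ((algebraMap K ((hsp p φ).adicCompletion K)).comp (algebraMap (𝓞 K) K)) φ
            (fun x => hw x) (fun i => crd (x l (hsp p φ) i))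
            (fun i => rep (red (x l (hsp p φ) i))) u hu (G e) (d e) (hG e)
            (fun i => vec ω (c l) i)).2
          have h7 : vl ((algebraMap K ((hsp p φ).adicCompletion K)).comp (algebraMap (𝓞 K) K))
              (G e) (fun i => crd (x l (hsp p φ) i)) (fun i =>
              ((algebraMap K ((hsp p φ).adicCompletion K)).comp (algebraMap (𝓞 K) K))
                (vec ω (c l) i)) = 0 := h5
          rw [h7, mul_zero, Place.r_zero] at h6
          rw [h6]
          congr 1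
          funext i
          rw [hredx l i])
      obtain ⟨l, l', hll, z, hz⟩ := h4
      exact ⟨l, l', hll, z, fun i => congrFun hz i⟩)
    refine ⟨l, l', hll, ?_⟩
    rw [hmk l, hmk l', Projectivization.mk_eq_mk_iff']
    refine ⟨z, ?_⟩
    funext i
    exact (hz i).symm
  choose Z hZ1 hZ2 using key
  refine ⟨(Finset.univ : Finset (Fin r → A)).biUnion Z, ?_, ?_⟩
  · have h1 : ((Finset.univ : Finset (Fin r → A)).biUnion Z).card ≤ D * L ^ (R₀ * r + 1) := by
      refine Finset.card_biUnion_le.trans ?_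
      have hQ : Fintype.card (Fin r → A) ≤ L ^ (R₀ * r) := by
        rw [Fintype.card_fun, Fintype.card_fin, Fintype.card_coe, pow_mul]
        exact Nat.pow_le_pow_left hAc r
      calc ∑ x : Fin r → A, (Z x).card ≤ ∑ _x : Fin r → A, D :=
            Finset.sum_le_sum fun x _ => hZ1 x
        _ = Fintype.card (Fin r → A) * D := by
            rw [Finset.sum_const, Finset.card_univ, smul_eq_mul]
        _ ≤ L ^ (R₀ * r) * D := Nat.mul_le_mul_right _ hQ
        _ ≤ L ^ (R₀ * r + 1) * D := Nat.mul_le_mul_right _ (Nat.pow_le_pow_right hL (by omega))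
        _ = D * L ^ (R₀ * r + 1) := mul_comm _ _
    have h2 : ((((Finset.univ : Finset (Fin r → A)).biUnion Z).card : ℕ) : ℝ) ≤
        D * (L : ℝ) ^ (R₀ * r + 1) := by
      exact_mod_cast h1
    exact h2.trans (mul_le_mul_of_nonneg_left hLR (Nat.cast_nonneg _))
  · rintro c h0 hc ⟨P, x, hx, hP⟩
    rw [Finset.mem_biUnion]
    exact ⟨fun i => ⟨κ₀ (P i), hκ₀ (P i)⟩, Finset.mem_univ _,
      hZ2 _ ⟨c, hc, h0, rfl, P, x, hx, hP, fun i => rfl⟩⟩

end Pool.Agent.Y213.T6
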