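import Pool.Agent.Y213.T6.Core

/-! The Mordell-Weil sieve for base point free families: the main estimate. -/

set_option autoImplicit false

namespace Pool.Agent.Y213.T6

open MvPolynomial NumberField Pool.Agent.H901R3.MS WeierstrassCurve IsDedekindDomain
open Pool.Agent.Y213.EC Pool.Agent.TH954 Pool.Agent.TH942

open Pool.Agent.W659.SA (vec)

open scoped LinearAlgebra.Projectivization

open scoped Classical in
theorem core_hyp (K : Type) [Field K] [NumberField K] (N : ℕ) (ω : Module.Basis (Fin N) ℤ (𝓞 K))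
    (r n q : ℕ) (a b : 𝓞 K) (hd : Disc (a : K) (b : K)) (G : Fin q → Pol (𝓞 K) r (n + 1))
    (d : Fin q → Fin r → ℕ) (k : Fin q → ℕ) (k' : ℕ) (hk : ∀ e, k e ≤ k')
    (hG : ∀ e, MHomog (G e) (d e)) (hX : ∀ e, XHomog (G e) (k e)) (σ : K →+* ℂ)
    (hns : ∀ V : Fin r → Fin 3 → ℂ, (∀ i, OnK (σ a) (σ b) (V i)) → ∃ e, spc (toC σ) (G e) V ≠ 0)
    (p₂ : ℕ) (ε : ℝ) (hε : 0 < ε) :
    ∃ H₀ : ℕ, 3 ≤ H₀ ∧ ∀ H : ℕ, H₀ ≤ H → ∃ (L : ℕ) (T : Finset (HeightOneSpectrum (𝓞 K))),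
      1 ≤ L ∧ (L : ℝ) ≤ (H : ℝ) ^ ε ∧ (∀ v ∈ T, p₂ ≤ Ideal.absNorm v.asIdeal) ∧
      ∃ FF : Finset (MvPolynomial (Fin (n + 1)) K), (FF.card : ℝ) ≤ (H : ℝ) ^ ε ∧
      (∀ f ∈ FF, f ≠ 0 ∧ f.IsHomogeneous k') ∧
      ∀ c : Fin (n + 1) × Fin N → ℤ, (∀ i, |c i| ≤ H) →
        Survives (a : K) (b : K) G T L (fun i => ((vec ω c i : 𝓞 K) : K)) →
        ∃ f ∈ FF, eval (fun i => ((vec ω c i : 𝓞 K) : K)) f = 0 := by
  have hFG : AddGroup.FG (SPt (a : K) (b : K)) := t_M1K K (a : K) (b : K) hd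
  obtain ⟨R₀, hR⟩ := t_M2 (SPt (a : K) (b : K)) hFG
  obtain ⟨p₁, hp₁⟩ := trz K r (n + 1) a b (Fin q) G σ hns
  obtain ⟨C₀, hC1, hC⟩ := Pool.Agent.W305.SA.DET.main K N ω (n + 1)
    (Finset.finsuppAntidiag Finset.univ k')
  obtain ⟨H₀, hH₀, hmain⟩ := primesE K a b hd (p₁ + p₂) (R₀ * r + 1) C₀ ε hε
  refine ⟨H₀, hH₀, fun H hH => ?_⟩
  obtain ⟨TT, L, hL, hT, hprod, hLR⟩ := hmain H hH
  obtain ⟨A, hAc, hAr⟩ := hR L hL
  choose κ₀ hκ₀ δ₀ hδ₀ using hAr
  have hT' : ∀ p : TT, ∃ (v : HeightOneSpectrum (𝓞 K)) (_ : Fact p.1.Prime)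
      (φ : 𝓞 K →+* ZMod p.1), v = hsp p.1 φ ∧ Disc (φ a) (φ b) ∧
      ∀ P : Pt (φ a) (φ b), L • P = 0 := by
    intro p
    obtain ⟨_, hF, φ, h1, h2⟩ := hT p.1 p.2
    exact ⟨hsp p.1 φ, hF, φ, rfl, h1, h2⟩
  choose vv hvv using hT'
  set T : Finset (HeightOneSpectrum (𝓞 K)) := Finset.univ.image vv with hTdef
  have hL1 : (1 : ℝ) ≤ L := by exact_mod_cast hL
  refine ⟨L, T, hL, ?_, ?_, ?_⟩
  · refine le_trans ?_ hLR
    calc (L : ℝ) = (L : ℝ) ^ 1 := (pow_one _).symm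
      _ ≤ (L : ℝ) ^ (R₀ * r + 1) := pow_le_pow_right₀ hL1 (by omega)
  · intro v hv
    rw [hTdef, Finset.mem_image] at hv
    obtain ⟨p, _, rfl⟩ := hv
    obtain ⟨hF, φ, hv', h1, h2⟩ := hvv p
    rw [hv']
    have h3 : ((Ideal.absNorm (hsp p.1 φ).asIdeal : ℕ) : 𝓞 K) ∈ (hsp p.1 φ).asIdeal :=
      Ideal.absNorm_mem _
    rw [mem_hsp, map_natCast, ZMod.natCast_eq_zero_iff] at h3
    have h4 : 0 < Ideal.absNorm (hsp p.1 φ).asIdeal := by
      rw [Nat.pos_iff_ne_zero, Ne, Ideal.absNorm_eq_zero_iff]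
      exact (hsp p.1 φ).ne_bot
    have h5 := (hT p.1 p.2).1
    exact (by omega : p₂ ≤ p.1).trans (Nat.le_of_dvd h4 h3)
  -- the members of a class
  let Pc : (Fin r → A) → Set (Fin (n + 1) × Fin N → ℤ) := fun κ => {c |
    (∀ i, |c i| ≤ H) ∧
      ∃ (P : Fin r → SPt (a : K) (b : K)) (x : ∀ v : HeightOneSpectrum (𝓞 K),
        Fin r → ((sw (a : K) (b : K)).baseChange (v.adicCompletion K)).toAffine.Point),
      (∀ v ∈ T, OnX (mbr G (fun i => ((vec ω c i : 𝓞 K) : K))) (fun i => crd (x v i))) ∧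
      (∀ v ∈ T, ∀ i, ∃ (z w : ((sw (a : K) (b : K)).baseChange
        (v.adicCompletion K)).toAffine.Point) (R : ℝ), 1 < R ∧ Big R w ∧
        x v i = locHom (L := v.adicCompletion K) (sw (a : K) (b : K)) (P i) + L • z + w) ∧
      ∀ i, κ i = ⟨κ₀ (P i), hκ₀ (P i)⟩}
  have key : ∀ κ : Fin r → A, ∃ f : MvPolynomial (Fin (n + 1)) K, f ≠ 0 ∧ f.IsHomogeneous k' ∧
      ∀ c ∈ Pc κ, eval (fun i => ((vec ω c i : 𝓞 K) : K)) f = 0 := by
    intro κ
    obtain ⟨f, hf0, hfΛ, hf⟩ := hC H TT (fun p hp => by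
        obtain ⟨_, hF, _⟩ := hT p hp
        exact hF.out) hprod (Pc κ) (fun c hc => hc.1) (by
      intro p hp
      obtain ⟨hF, φ, hv', hdφ, hkill⟩ := hvv ⟨p, hp⟩
      have hp1 := (hT p hp).1
      simp only at φ hdφ hkill hF
      haveI := hF
      have hmem : hsp p φ ∈ T := by
        rw [hTdef, Finset.mem_image]
        exact ⟨⟨p, hp⟩, Finset.mem_univ _, hv'⟩
      obtain ⟨w, hw, hwA⟩ := exists_place_v p φ
      obtain ⟨red, hred1, hred2⟩ := exists_redW w
        (a := algebraMap K ((hsp p φ).adicCompletion K) (a : K))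
        (b := algebraMap K ((hsp p φ).adicCompletion K) (b : K)) (a' := φ a) (b' := φ b)
        (hw a).1 (hw b).1 (hw a).2 (hw b).2 hdφ
        ((sw (a : K) (b : K)).baseChange ((hsp p φ).adicCompletion K)) (bc_eq _ _ _)
      let redK : SPt (a : K) (b : K) →+ Pt (φ a) (φ b) :=
        red.comp (locHom (L := (hsp p φ).adicCompletion K) (sw (a : K) (b : K)))
      have hbig : ∀ (u : ((sw (a : K) (b : K)).baseChange
          ((hsp p φ).adicCompletion K)).toAffine.Point) (R : ℝ), 1 < R → Big R u →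
          red u = 0 := by
        intro u R hR1 hu
        rcases u with _ | ⟨x, y, h⟩
        · exact map_zero red
        · apply hred1
          intro hxA
          have h2 := hu x y h rfl
          have h3 := (hwA x).2 hxA
          linarith
      obtain ⟨e, he⟩ := hp₁ p hF.out (by omega) (ZMod p) φ (fun i => rep (redK (κ i).1))
        (fun i => onK_rep _)
      have hg1 : (spc φ (G e) (fun i => rep (redK (κ i).1))).IsHomogeneous (k e) :=
        homog_of_supp (spc_support φ _ _ (hX e) _)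
      have hg2 : (spc φ (G e) (fun i => rep (redK (κ i).1)) *
          X 0 ^ (k' - k e)).IsHomogeneous k' := by
        have h4 := hg1.mul ((isHomogeneous_X (ZMod p) (0 : Fin (n + 1))).pow (k' - k e))
        have h5 : k e + 1 * (k' - k e) = k' := by have := hk e; omega
        rwa [h5] at h4
      refine ⟨ZMod p, inferInstance, inferInstance, φ,
        spc φ (G e) (fun i => rep (redK (κ i).1)) * X 0 ^ (k' - k e),
        mul_ne_zero he (pow_ne_zero _ (X_ne_zero _)), supp_of_homog hg2, ?_⟩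
      rintro c ⟨_, P, x, hx, hP, hκ⟩
      have hredx : ∀ i, red (x (hsp p φ) i) = redK (κ i).1 := by
        intro i
        obtain ⟨z, u, R, hR1, hu, he⟩ := hP (hsp p φ) hmem i
        have h2 : red (x (hsp p φ) i) = redK (P i) := by
          rw [he, map_add, map_add, map_nsmul, hkill, hbig u R hR1 hu, add_zero, add_zero]
          rfl
        have h3 : P i = (κ₀ (P i) : SPt (a : K) (b : K)) + L • δ₀ (P i) := hδ₀ (P i)
        have h4 : redK (P i) = redK (κ₀ (P i)) := by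
          conv_lhs => rw [h3]
          rw [map_add, map_nsmul, hkill, add_zero]
        rw [h2, h4, hκ i]
      have h5 := (onX_mbr G _ _).1 (hx (hsp p φ) hmem) e
      choose u hu0 hu using fun i => hred2 (x (hsp p φ) i)
      have h6 := (loc_valG w ((algebraMap K ((hsp p φ).adicCompletion K)).comp
        (algebraMap (𝓞 K) K)) φ (fun x => hw x)
        ((algebraMap K ((hsp p φ).adicCompletion K)).comp (algebraMap (𝓞 K) K)) φ
        (fun x => hw x) (fun i => crd (x (hsp p φ) i))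
        (fun i => rep (red (x (hsp p φ) i))) u hu (G e) (d e) (hG e)
        (fun i => vec ω c i)).2
      have h7 : vl ((algebraMap K ((hsp p φ).adicCompletion K)).comp (algebraMap (𝓞 K) K))
          (G e) (fun i => crd (x (hsp p φ) i)) (fun i =>
          ((algebraMap K ((hsp p φ).adicCompletion K)).comp (algebraMap (𝓞 K) K))
            (vec ω c i)) = 0 := h5
      rw [h7, mul_zero, Place.r_zero] at h6
      have h8 : vl φ (G e) (fun i => rep (redK (κ i).1)) (fun i => φ (vec ω c i)) = 0 := by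
        rw [h6]
        congr 1
        funext i
        rw [hredx i]
      rw [map_mul, ← vl_eq, h8, zero_mul])
    exact ⟨f, hf0, homog_of_supp hfΛ, fun c hc => hf c hc⟩
  choose f hf0 hfh hf using key
  refine ⟨Finset.univ.image f, ?_, ?_, ?_⟩
  · refine le_trans ?_ hLR
    have hQ : Fintype.card (Fin r → A) ≤ L ^ (R₀ * r) := by
      rw [Fintype.card_fun, Fintype.card_fin, Fintype.card_coe, pow_mul]
      exact Nat.pow_le_pow_left hAc r
    have h1 : (Finset.univ.image f).card ≤ L ^ (R₀ * r + 1) :=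
      ((Finset.card_image_le).trans hQ).trans (Nat.pow_le_pow_right hL (by omega))
    exact_mod_cast h1
  · intro g hg
    rw [Finset.mem_image] at hg
    obtain ⟨x, _, rfl⟩ := hg
    exact ⟨hf0 x, hfh x⟩
  · rintro c hc ⟨P, x, hx, hP⟩
    exact ⟨f (fun i => ⟨κ₀ (P i), hκ₀ (P i)⟩), Finset.mem_image_of_mem _ (Finset.mem_univ _),
      hf _ c ⟨hc, P, x, hx, hP, fun i => rfl⟩⟩

end Pool.Agent.Y213.T6
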