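import Pool.Agent.Y213.T6.Core

/-! The Mordell-Weil sieve for the members of a family, with heights. -/

set_option autoImplicit false

namespace Pool.Agent.Y213.T6

open MvPolynomial NumberField Pool.Agent.H901R3.MS WeierstrassCurve IsDedekindDomain
open Pool.Agent.Y213.EC Pool.Agent.TH954 Pool.Agent.TH942

open Pool.Agent.W659.SA (vec)

open scoped LinearAlgebra.Projectivization

theorem mbr_scale {K : Type} [Field K] {r n q : ℕ} (G : Fin q → Pol (𝓞 K) r n)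
    (k : Fin q → ℕ) (hX : ∀ e, XHomog (G e) (k e)) (t t' : Fin n → K) (u : K)
    (h : ∀ i, t' i = u * t i) {L : Type} [Field L] [Algebra K L] (V : Fin r → Fin 3 → L)
    (hV : OnX (mbr G t) V) : OnX (mbr G t') V := by
  rw [onX_mbr] at hV ⊢
  intro e
  have h1 : (fun i => algebraMap K L (t' i)) =
      fun i => algebraMap K L u * algebraMap K L (t i) := by
    funext i
    rw [h i, map_mul]
  rw [h1, vl_xscale _ (G e) (k e) (hX e), hV e, mul_zero]

theorem sieve_main (K : Type) [Field K] [NumberField K] (r n q : ℕ) (a b : 𝓞 K)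
    (hd : 4 * a ^ 3 + 27 * b ^ 2 ≠ 0) (G : Fin q → Pol (𝓞 K) r n)
    (d : Fin q → Fin r → ℕ) (k : Fin q → ℕ) (hG : ∀ e, MHomog (G e) (d e))
    (hX : ∀ e, XHomog (G e) (k e)) (D : ℕ) (σ : K →+* ℂ)
    (hns : ∀ V : Fin r → Fin 3 → ℂ, (∀ i, OnK (σ a) (σ b) (V i)) →
      (Fib (toC σ) G V).encard ≤ D)
    (p₂ : ℕ) (ε : ℝ) (hε : 0 < ε) :
    ∃ C : ℝ, 0 < C ∧ ∀ B : ℝ, 1 ≤ B → ∃ (L : ℕ) (T : Finset (HeightOneSpectrum (𝓞 K)))
      (Z : Finset (ℙ K (Fin n → K))),
      1 ≤ L ∧ (L : ℝ) ≤ C * B ^ ε ∧ (∀ v ∈ T, p₂ ≤ Ideal.absNorm v.asIdeal) ∧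
      (Z.card : ℝ) ≤ C * B ^ ε ∧
      ∀ y : ℙ K (Fin n → K), y.mulHeight ≤ B → Survives (a : K) (b : K) G T L y.rep → y ∈ Z := by
  classical
  have hdK : Disc (a : K) (b : K) := by
    intro h
    apply hd
    have h1 : (2 * (4 * a ^ 3 + 27 * b ^ 2) : 𝓞 K) = 0 := by
      apply RingOfIntegers.ext
      have h2 : ((2 * (4 * a ^ 3 + 27 * b ^ 2) : 𝓞 K) : K) =
          2 * (4 * (a : K) ^ 3 + 27 * (b : K) ^ 2) := by
        simp only [map_mul, map_add, map_pow, map_ofNat]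
      rw [h2]
      exact h
    exact (mul_eq_zero.1 h1).resolve_left two_ne_zero
  obtain ⟨N, ω, C, hC0, hC⟩ := reduce K n
  set ε' : ℝ := ε / ((n : ℝ) + 1) with hε'
  have hε'0 : 0 < ε' := by positivity
  obtain ⟨H₀, hH₀, hmain⟩ := core_fin K N ω r n q a b hdK G d hG σ D (by
    intro V hV x hx0 hx
    by_contra hcon
    push Not at hcon
    have hinj : Function.Injective fun l => Projectivization.mk ℂ (x l) (hx0 l) := by
      intro l l' hll
      by_contra hne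
      obtain ⟨u, hu⟩ := (Projectivization.mk_eq_mk_iff' ℂ _ _ _ _).1 hll
      exact hcon l l' hne u hu.symm
    have h1 : (Set.range fun l => Projectivization.mk ℂ (x l) (hx0 l)) ⊆ Fib (toC σ) G V := by
      rintro _ ⟨l, rfl⟩
      exact mem_fib _ G k hX V (x l) (hx0 l) (hx l)
    have h2 := (Set.encard_le_encard h1).trans (hns V hV)
    rw [← Set.image_univ, hinj.encard_image, Set.encard_univ, ENat.card_eq_coe_fintype_card,
      Fintype.card_fin] at h2
    have h3 : D + 1 ≤ D := by exact_mod_cast h2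
    omega) p₂ ε' hε'0
  refine ⟨(D + 1) * (C + 1 + H₀) ^ ε', by positivity, fun B hB => ?_⟩
  set H : ℕ := ⌈C * B ^ (n + 1)⌉₊ + H₀ with hH
  have hB' : (1 : ℝ) ≤ B ^ (n + 1) := one_le_pow₀ hB
  have hHle : (H : ℝ) ≤ (C + 1 + H₀) * B ^ (n + 1) := by
    have h1 := (Nat.ceil_lt_add_one (by positivity : 0 ≤ C * B ^ (n + 1))).le
    have h2 : (0 : ℝ) ≤ H₀ := Nat.cast_nonneg _
    rw [hH]
    push_cast
    nlinarith
  have hHge : C * B ^ (n + 1) ≤ H := by
    rw [hH]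
    push_cast
    have h1 := Nat.le_ceil (C * B ^ (n + 1))
    have h2 : (0 : ℝ) ≤ H₀ := Nat.cast_nonneg _
    linarith
  have hbd := rpow_bound n C B ε hC0 hB hε H₀ H hHle
  have hpos : 0 ≤ (C + 1 + (H₀ : ℝ)) ^ (ε / ((n : ℝ) + 1)) * B ^ ε := by positivity
  obtain ⟨L, T, hL, hLH, hT, Z, hZ1, hZ2⟩ := hmain H (by omega)
  refine ⟨L, T, Z, hL, ?_, hT, ?_, ?_⟩
  · refine (hLH.trans hbd).trans ?_
    rw [mul_assoc]
    have hD : (0 : ℝ) ≤ D := Nat.cast_nonneg _
    nlinarith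
  · refine hZ1.trans ?_
    rw [mul_assoc]
    refine (mul_le_mul_of_nonneg_left hbd (Nat.cast_nonneg _)).trans ?_
    refine mul_le_mul_of_nonneg_right ?_ hpos
    linarith
  · rintro y hyB ⟨P, x, hx, hP⟩
    obtain ⟨c, u, hu, hcu, hcB⟩ := hC B y hyB
    have h1 : (fun i => ((vec ω c i : 𝓞 K) : K)) = u • y.rep := by
      funext i
      rw [hcu i]
      rfl
    have h2 : (fun i => ((vec ω c i : 𝓞 K) : K)) ≠ 0 := by
      rw [h1]
      exact smul_ne_zero hu y.rep_nonzero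
    have h3 := hZ2 c h2 (by
      intro i
      have h1 : |(c i : ℝ)| ≤ H := (hcB i).trans hHge
      exact_mod_cast h1) ⟨P, x, fun v hv => mbr_scale G k hX y.rep _ u (fun i => hcu i) _
        (hx v hv), hP⟩
    have h4 : Projectivization.mk K _ h2 = y := by
      conv_rhs => rw [← y.mk_rep]
      rw [Projectivization.mk_eq_mk_iff']
      exact ⟨u, h1.symm⟩
    rw [h4] at h3
    exact h3

end Pool.Agent.Y213.T6
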