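import Pool.Agent.Y213.EC.Red
import Pool.Agent.H901R3.MS.P_PLK

/-! The place of the completion of a number field given by a homomorphism to a prime field. -/

set_option autoImplicit false

namespace Pool.Agent.Y213.T6

open Pool.Agent.H901R3.MS Pool.Agent.H901R3.MS.W_PLK NumberField IsDedekindDomain
open HeightOneSpectrum

variable {K : Type} [Field K] [NumberField K]

/-- the maximal ideal defined by a homomorphism to a prime field -/
noncomputable def hsp (p : ℕ) [Fact p.Prime] (φ : 𝓞 K →+* ZMod p) : HeightOneSpectrum (𝓞 K) where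
  asIdeal := RingHom.ker φ
  isPrime := RingHom.ker_isPrime φ
  ne_bot := by
    intro h0
    have h1 : ((p : ℕ) : 𝓞 K) ∈ RingHom.ker φ := by
      rw [RingHom.mem_ker, map_natCast, ZMod.natCast_self]
    rw [h0, Ideal.mem_bot, Nat.cast_eq_zero] at h1
    exact (Fact.out : p.Prime).ne_zero h1

theorem mem_hsp (p : ℕ) [Fact p.Prime] (φ : 𝓞 K →+* ZMod p) (x : 𝓞 K) :
    x ∈ (hsp p φ).asIdeal ↔ φ x = 0 := Iff.rfl

theorem nn_add (v : HeightOneSpectrum (𝓞 K)) {x y : v.adicCompletion K} {c : ℝ} (hx : ‖x‖ < c)
    (hy : ‖y‖ < c) : ‖x + y‖ < c := by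
  have hu : IsUltrametricDist (v.adicCompletion K) := inferInstance
  exact (IsUltrametricDist.norm_add_le_max x y).trans_lt (max_lt hx hy)

theorem nn_add' (v : HeightOneSpectrum (𝓞 K)) {x y : v.adicCompletion K} {c : ℝ} (hx : ‖x‖ ≤ c)
    (hy : ‖y‖ ≤ c) : ‖x + y‖ ≤ c := by
  have hu : IsUltrametricDist (v.adicCompletion K) := inferInstance
  exact (IsUltrametricDist.norm_add_le_max x y).trans (max_le hx hy)

/-- integers of the completion are near integers of the field -/
theorem exists_near_int (v : HeightOneSpectrum (𝓞 K)) (x : v.adicCompletion K) (hx : ‖x‖ ≤ 1) :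
    ∃ a : 𝓞 K, ‖x - algebraMap K (v.adicCompletion K) (a : K)‖ < 1 := by
  obtain ⟨y, hy⟩ := (HeightOneSpectrum.denseRange_algebraMap K v).exists_dist_lt x one_pos
  rw [dist_eq_norm] at hy
  have hy1 : ‖algebraMap K (v.adicCompletion K) y‖ ≤ 1 := by
    have h1 : algebraMap K (v.adicCompletion K) y =
        x + -(x - algebraMap K (v.adicCompletion K) y) := by ring
    rw [h1]
    refine nn_add' v hx ?_
    rw [norm_neg]
    exact hy.le
  have hval : ∀ z : K, Valued.v (algebraMap K (v.adicCompletion K) z) = v.valuation K z :=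
    fun z => valuedAdicCompletion_eq_valuation' v z
  have hy2 : v.valuation K y ≤ 1 := by
    rw [Valued.toNormedField.norm_le_one_iff, hval] at hy1
    exact hy1
  obtain ⟨a, ha⟩ := exists_valuation_sub_lt_of_integer v hy2 1
  refine ⟨a, ?_⟩
  have ha' : ‖algebraMap K (v.adicCompletion K) y -
      algebraMap K (v.adicCompletion K) (a : K)‖ < 1 := by
    rw [norm_sub_rev, ← map_sub, Valued.toNormedField.norm_lt_one_iff, hval]
    exact ha
  have h2 : x - algebraMap K (v.adicCompletion K) (a : K) =
      (x - algebraMap K (v.adicCompletion K) y) + (algebraMap K (v.adicCompletion K) y -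
        algebraMap K (v.adicCompletion K) (a : K)) := by ring
  rw [h2]
  exact nn_add v hy ha'

theorem exists_place_v (p : ℕ) [Fact p.Prime] (φ : 𝓞 K →+* ZMod p) :
    ∃ w : Place ((hsp p φ).adicCompletion K) (ZMod p),
      (∀ x : 𝓞 K, algebraMap K ((hsp p φ).adicCompletion K) (x : K) ∈ w.A ∧
        w.r (algebraMap K ((hsp p φ).adicCompletion K) (x : K)) = φ x) ∧
      ∀ x, ‖x‖ ≤ 1 ↔ x ∈ w.A := by
  set v := hsp p φ with hv
  have hex : ∀ x : v.adicCompletionIntegers K, ∃ a : 𝓞 K,
      ‖(x : v.adicCompletion K) - algebraMap K (v.adicCompletion K) (a : K)‖ < 1 := by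
    intro x
    refine exists_near_int v x ?_
    rw [Valued.toNormedField.norm_le_one_iff]
    exact x.2
  choose g hg using hex
  have hmem : ∀ a : 𝓞 K, ‖algebraMap K (v.adicCompletion K) (a : K)‖ < 1 ↔ φ a = 0 := by
    intro a
    rw [← mem_hsp p φ a, ← FinitePlace.norm_lt_one_iff_mem K v a]
    rfl
  have hwd : ∀ (x : v.adicCompletionIntegers K) (a : 𝓞 K),
      ‖(x : v.adicCompletion K) - algebraMap K (v.adicCompletion K) (a : K)‖ < 1 →
      φ (g x) = φ a := by
    intro x a ha
    rw [← sub_eq_zero, ← map_sub, ← hmem]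
    have h1 : algebraMap K (v.adicCompletion K) ((g x - a : 𝓞 K) : K) =
        ((x : v.adicCompletion K) - algebraMap K (v.adicCompletion K) (a : K)) +
        -((x : v.adicCompletion K) - algebraMap K (v.adicCompletion K) (g x : K)) := by
      have e1 : ((g x - a : 𝓞 K) : K) = (g x : K) - (a : K) := rfl
      rw [e1, map_sub]
      ring
    rw [h1]
    refine nn_add v ha ?_
    rw [norm_neg]
    exact hg x
  have hint : ∀ a : 𝓞 K, ‖algebraMap K (v.adicCompletion K) (a : K)‖ ≤ 1 := fun a =>
    FinitePlace.norm_le_one K v a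
  let h : v.adicCompletionIntegers K →+* ZMod p :=
    { toFun := fun x => φ (g x)
      map_one' := by
        rw [← map_one φ]
        apply hwd
        simp
      map_zero' := by
        rw [← map_zero φ]
        apply hwd
        simp
      map_add' := by
        intro x y
        rw [← map_add φ]
        apply hwd
        have h1 : ((x + y : v.adicCompletionIntegers K) : v.adicCompletion K) -
            algebraMap K (v.adicCompletion K) ((g x + g y : 𝓞 K) : K) =
            ((x : v.adicCompletion K) - algebraMap K (v.adicCompletion K) (g x : K)) +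
            ((y : v.adicCompletion K) - algebraMap K (v.adicCompletion K) (g y : K)) := by
          have e1 : ((g x + g y : 𝓞 K) : K) = (g x : K) + (g y : K) := rfl
          have e2 : ((x + y : v.adicCompletionIntegers K) : v.adicCompletion K) =
            (x : v.adicCompletion K) + y := rfl
          rw [e1, e2, map_add]
          ring
        rw [h1]
        exact nn_add v (hg x) (hg y)
      map_mul' := by
        intro x y
        rw [← map_mul φ]
        apply hwd
        have h1 : ((x * y : v.adicCompletionIntegers K) : v.adicCompletion K) -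
            algebraMap K (v.adicCompletion K) ((g x * g y : 𝓞 K) : K) =
            ((x : v.adicCompletion K) - algebraMap K (v.adicCompletion K) (g x : K)) *
              (y : v.adicCompletion K) +
            algebraMap K (v.adicCompletion K) (g x : K) *
            ((y : v.adicCompletion K) - algebraMap K (v.adicCompletion K) (g y : K)) := by
          have e1 : ((g x * g y : 𝓞 K) : K) = (g x : K) * (g y : K) := rfl
          have e2 : ((x * y : v.adicCompletionIntegers K) : v.adicCompletion K) =
            (x : v.adicCompletion K) * y := rfl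
          rw [e1, e2, map_mul]
          ring
        rw [h1]
        have hy : ‖(y : v.adicCompletion K)‖ ≤ 1 := by
          rw [Valued.toNormedField.norm_le_one_iff]
          exact y.2
        refine nn_add v ?_ ?_
        · rw [norm_mul]
          calc _ ≤ ‖(x : v.adicCompletion K) - algebraMap K (v.adicCompletion K) (g x : K)‖ * 1 :=
                mul_le_mul_of_nonneg_left hy (norm_nonneg _)
            _ < 1 := by rw [mul_one]; exact hg x
        · rw [norm_mul]
          calc _ ≤ 1 * ‖(y : v.adicCompletion K) - algebraMap K (v.adicCompletion K) (g y : K)‖ :=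
                mul_le_mul_of_nonneg_right (hint _) (norm_nonneg _)
            _ < 1 := by rw [one_mul]; exact hg y }
  have hsmall : ∀ x : v.adicCompletionIntegers K, ‖(x : v.adicCompletion K)‖ < 1 → h x = 0 := by
    intro x hx
    show φ (g x) = 0
    rw [← map_zero φ]
    apply hwd
    simpa using hx
  obtain ⟨w, hw⟩ := place_of (K := v.adicCompletion K) (k := ZMod p)
    (R := v.adicCompletionIntegers K) h (by
      intro x hx
      rw [adicCompletionIntegers.isUnit_iff_valued_eq_one]
      have h1 : Valued.v (x : v.adicCompletion K) ≤ 1 := x.2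
      refine le_antisymm h1 ?_
      by_contra hcon
      rw [not_le] at hcon
      apply hx
      apply hsmall
      rw [Valued.toNormedField.norm_lt_one_iff]
      exact hcon)
  refine ⟨w, fun x => ?_, fun x => ⟨fun hx => ?_, fun hx => ?_⟩⟩
  · have h1 := hw (algebraMap (𝓞 K) (v.adicCompletionIntegers K) x)
    refine ⟨h1.1, h1.2.trans ?_⟩
    apply hwd
    have h2 : ((algebraMap (𝓞 K) (v.adicCompletionIntegers K) x : v.adicCompletionIntegers K) :
        v.adicCompletion K) = algebraMap K (v.adicCompletion K) (x : K) := rfl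
    rw [h2, sub_self, norm_zero]
    exact one_pos
  · rw [Valued.toNormedField.norm_le_one_iff] at hx
    exact (hw ⟨x, hx⟩).1
  · by_contra hcon
    rw [not_le] at hcon
    have hx0 : x ≠ 0 := by
      intro h0
      rw [h0, norm_zero] at hcon
      linarith
    have h1 : ‖x⁻¹‖ < 1 := by
      rw [norm_inv]
      exact inv_lt_one_of_one_lt₀ hcon
    have h2 : Valued.v x⁻¹ ≤ 1 := by
      rw [← Valued.toNormedField.norm_le_one_iff]
      exact h1.le
    have h3 := hw ⟨x⁻¹, h2⟩
    have h4 : h ⟨x⁻¹, h2⟩ = 0 := hsmall _ h1
    have h5 : algebraMap (v.adicCompletionIntegers K) (v.adicCompletion K) ⟨x⁻¹, h2⟩ = x⁻¹ := rfl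
    rw [h5, h4] at h3
    have h6 := w.r_mul hx h3.1
    rw [h3.2, mul_zero, mul_inv_cancel₀ hx0, w.r_one] at h6
    exact one_ne_zero h6

end Pool.Agent.Y213.T6
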