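import Pool.Agent.Y213.T6.Cl
import Pool.Agent.TH954.SEt2

/-! Most members of a family have no locally geometric section. -/

set_option autoImplicit false
set_option linter.unusedSectionVars false

namespace Pool.Agent.Y213.T6

open MvPolynomial NumberField WeierstrassCurve IsDedekindDomain
open Pool.Agent.TH954 Pool.Agent.TH942 Pool.Agent.W620.SC

section near

variable {K : Type} [Field K] [NumberField K] {M : Type} [Field M] [Algebra K M] {a b : K}

open scoped Classical in
/-- the points of a local section are near rational points modulo `N` -/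
theorem points_mod {n : ℕ} {M0 : ℕ} (hM1 : 1 ≤ M0)
    (hM : ShaKilledBy (sw a b) M0)
    (A : SAct K M) (P : Fin n → ((sw a b).baseChange M).toAffine.Point)
    (hP : ∀ i τ, A.pt a b τ (P i) = P i)
    (hdiv : ∀ N : ℕ, 1 ≤ N → ∀ i, ∃ Q, N • Q = P i)
    (htor : ∀ N : ℕ, 1 ≤ N → ∀ T : ((sw a b).baseChange M).toAffine.Point, N • T = 0 →
      ∃ T0, pm (sw a b) A.j T0 = T)
    (pl : ∀ v : HeightOneSpectrum (𝓞 K), Plc K M (AlgebraicClosure (v.adicCompletion K)))
    (hpl : ∀ v, GeoPlc A (pl v))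
    (red : ∀ v : HeightOneSpectrum (𝓞 K), ((sw a b).baseChange M).toAffine.Point →+
      AlgPt (sw a b) (v.adicCompletion K))
    (h1 : ∀ v x y h, x ∉ (pl v).W → red v (.some x y h) = 0)
    (h2 : ∀ v x y h (hx : x ∈ (pl v).W), ∃ (hy : y ∈ (pl v).W)
      (h' : ((sw a b).baseChange (AlgebraicClosure (v.adicCompletion K))).toAffine.Nonsingular
        ((pl v).ρ ⟨x, hx⟩) ((pl v).ρ ⟨y, hy⟩)), red v (.some x y h) = .some _ _ h')
    (Pv : ∀ v : HeightOneSpectrum (𝓞 K), Fin n →
      ((sw a b).baseChange (v.adicCompletion K)).toAffine.Point)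
    (hPv : ∀ v i, incl (sw a b) (v.adicCompletion K) (Pv v i) = red v (P i))
    (N : ℕ) (hN : 1 ≤ N) :
    ∃ y : Fin n → SPt a b, ∀ v i,
      ∃ z, Pv v i - locHom (L := v.adicCompletion K) (sw a b) (y i) = N • z := by
  set m : ℕ := M0 * 2 with hm
  have hm1 : 1 ≤ m := by omega
  have hmN : 1 ≤ m * N := Nat.mul_pos hm1 hN
  choose Q hQ using hdiv (m * N) hmN
  have hcoc : ∀ i, ∃ ξ : (AlgebraicClosure K ≃ₐ[K] AlgebraicClosure K) → AlgPt (sw a b) K,
      IsCocycle (sw a b) ξ ∧ (∀ σ, (m * N) • ξ σ = 0) ∧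
      ∀ σ, pm (sw a b) A.j (ξ σ) = A.pt a b σ (Q i) - Q i := fun i =>
    exists_cocycle A (hQ i) (hP i) (htor _ hmN)
  choose ξ hξ hξN hξj using hcoc
  have hloc : ∀ v i σ τ, Compat ((pl v).iot A.j) σ τ →
      pm (sw a b) ((pl v).iot A.j) (ξ i τ) = act (sw a b) σ (red v (Q i)) - red v (Q i) :=
    fun v i => (cocycle_local A (hpl v) (h1 v) (h2 v) (hξj i)).1
  have hRex : ∀ i, ∃ R : AlgPt (sw a b) K, ∀ σ, m • ξ i σ = act (sw a b) σ R - R := by
    intro i
    have hco2 : IsCocycle (sw a b) (fun σ => 2 • ξ i σ) := by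
      refine ⟨fun σ τ => ?_, ?_⟩
      · change 2 • ξ i (σ * τ) = 2 • ξ i σ + act (sw a b) σ (2 • ξ i τ)
        rw [(hξ i).1 σ τ, ns_add, act_nsmul]
      · obtain ⟨F, hF, h⟩ := (hξ i).2
        exact ⟨F, hF, fun σ τ hστ => by
          change 2 • ξ i σ = 2 • ξ i τ
          rw [h σ τ hστ]⟩
    obtain ⟨R, hR⟩ := hM (fun σ => 2 • ξ i σ) hco2 (fun v => by
      refine ⟨(pl v).iot A.j, 2 • red v (Q i), fun σ τ hστ => ?_⟩
      change pm (sw a b) _ (2 • ξ i τ) = _
      rw [map_nsmul, hloc v i σ τ hστ, act_nsmul, ns_sub]) (fun w =>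
      trivial_two (hξ i).1 w.Completion (twoGal_inf w))
    refine ⟨R, fun σ => ?_⟩
    rw [← hR σ, hm, ns_mul]
  choose R hR using hRex
  have hyex : ∀ i, ∃ y : SPt a b, incl (sw a b) K y = N • R i := by
    intro i
    refine exists_of_fixed (L := K) (N • R i) (fun σ => ?_)
    have e1 : act (sw a b) σ (R i) = R i + m • ξ i σ := by
      rw [hR i σ]
      abel
    rw [act_nsmul, e1, ns_add, ← ns_mul, mul_comm N m, hξN, add_zero]
  choose y hy using hyex
  refine ⟨y, ?_⟩
  intro v i
  have : CharZero (v.adicCompletion K) :=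
    charZero_of_injective_algebraMap (algebraMap K (v.adicCompletion K)).injective
  refine local_step (M := m) (N := N) (Q := red v (Q i)) (ι := (pl v).iot A.j)
    (R := R i) ?_ (fun σ τ h => hloc v i σ τ h) (hR i) (hy i)
  rw [hPv, ← hQ i]
  exact (map_nsmul (red v) _ _).symm

open scoped Classical in
/-- the local points of a section of the group of a subvariety lie on the subvariety -/
theorem points_loc {n : ℕ} {M0 : ℕ} (hM1 : 1 ≤ M0)
    (hM : ShaKilledBy (sw a b) M0)
    (S : Set (MvPolynomial (Fin n × Fin 3) K)) (hS : ∀ f ∈ S, ∃ d, MultiHom d f)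
    (A : SAct K M) (P : Fin n → ((sw a b).baseChange M).toAffine.Point)
    (hPS : OnX S (fun i => crd (P i)))
    (hP : ∀ i τ, A.pt a b τ (P i) = P i)
    (hdiv : ∀ N : ℕ, 1 ≤ N → ∀ i, ∃ Q, N • Q = P i)
    (htor : ∀ N : ℕ, 1 ≤ N → ∀ T : ((sw a b).baseChange M).toAffine.Point, N • T = 0 →
      ∃ T0, pm (sw a b) A.j T0 = T)
    (pl : ∀ v : HeightOneSpectrum (𝓞 K), Plc K M (AlgebraicClosure (v.adicCompletion K)))
    (hpl : ∀ v, GeoPlc A (pl v))
    (red : ∀ v : HeightOneSpectrum (𝓞 K), ((sw a b).baseChange M).toAffine.Point →+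
      AlgPt (sw a b) (v.adicCompletion K))
    (h1 : ∀ v x y h, x ∉ (pl v).W → red v (.some x y h) = 0)
    (h2 : ∀ v x y h (hx : x ∈ (pl v).W), ∃ (hy : y ∈ (pl v).W)
      (h' : ((sw a b).baseChange (AlgebraicClosure (v.adicCompletion K))).toAffine.Nonsingular
        ((pl v).ρ ⟨x, hx⟩) ((pl v).ρ ⟨y, hy⟩)), red v (.some x y h) = .some _ _ h')
    (N : ℕ) (hN : 1 ≤ N) :
    ∃ (y : Fin n → SPt a b) (Pv : ∀ v : HeightOneSpectrum (𝓞 K), Fin n →
      ((sw a b).baseChange (v.adicCompletion K)).toAffine.Point),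
      (∀ v, OnX S (fun i => crd (Pv v i))) ∧ ∀ v i,
      ∃ z, Pv v i - locHom (L := v.adicCompletion K) (sw a b) (y i) = N • z := by
  have hch : ∀ v : HeightOneSpectrum (𝓞 K), CharZero (v.adicCompletion K) := fun v =>
    charZero_of_injective_algebraMap (algebraMap K (v.adicCompletion K)).injective
  -- the local points
  have hfix : ∀ v i, ∃ z, incl (sw a b) (v.adicCompletion K) z = red v (P i) := by
    intro v i
    refine exists_of_fixed _ (fun σ => ?_)
    obtain ⟨τ, hτ⟩ := exists_compat ((pl v).iot A.j) σ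
    have h3 := red_act (pl := pl v) (a := a) (b := b) (red := red v) (map_zero (red v)) (h1 v)
      (h2 v) ((A.s τ : M ≃ₐ[K] M) : M →ₐ[K] M)
      ((σ : AlgebraicClosure (v.adicCompletion K) →ₐ[v.adicCompletion K]
        AlgebraicClosure (v.adicCompletion K)).restrictScalars K)
      (fun x => hpl v σ τ hτ x) (P i)
    have h4 := hP i τ
    unfold SAct.pt at h4
    rw [h4] at h3
    exact h3.symm
  choose Pv hPv using hfix
  have hPX : ∀ v, OnX S (fun i => crd (Pv v i)) := by
    intro v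
    have h3 : OnX S (fun i => crd (red v (P i))) :=
      onX_red (pl v) hS (fun i => red_crd (pl := pl v) (red := red v) (map_zero (red v))
        (h1 v) (h2 v) (P i)) hPS
    intro f hf
    have h4 := h3 f hf
    have h5 : ∀ p : Fin n × Fin 3, crd (red v (P p.1)) p.2 =
        algebraMap (v.adicCompletion K) (AlgebraicClosure (v.adicCompletion K))
          (crd (Pv v p.1) p.2) := by
      intro p
      rw [← hPv v p.1]
      have h6 : ∀ T : ((sw a b).baseChange (v.adicCompletion K)).toAffine.Point, ∀ j : Fin 3,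
          crd (incl (sw a b) (v.adicCompletion K) T) j =
          algebraMap (v.adicCompletion K) (AlgebraicClosure (v.adicCompletion K)) (crd T j) := by
        intro T j
        rcases T with _ | ⟨x, y, h⟩
        · change ![(0 : AlgebraicClosure (v.adicCompletion K)), 1, 0] j =
            algebraMap (v.adicCompletion K) _ (![(0 : v.adicCompletion K), 1, 0] j)
          fin_cases j <;> simp
        · change ![algebraMap (v.adicCompletion K) (AlgebraicClosure (v.adicCompletion K)) x,
            algebraMap (v.adicCompletion K) (AlgebraicClosure (v.adicCompletion K)) y, 1] j =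
            algebraMap (v.adicCompletion K) _ (![x, y, 1] j)
          fin_cases j <;> simp
      exact h6 _ _
    have h7 := aeval_algebraMap_apply (AlgebraicClosure (v.adicCompletion K))
      (fun p : Fin n × Fin 3 => crd (Pv v p.1) p.2) f
    simp only [h5] at h4
    have h8 := h7.symm.trans h4
    exact (map_eq_zero _).1 h8
  obtain ⟨y, hy⟩ := points_mod hM1 hM A P hP hdiv htor pl hpl red h1 h2 Pv hPv N hN
  exact ⟨y, Pv, hPX, hy⟩

end near

section sec

variable {K : Type} [Field K] [NumberField K] {F Ω M B : Type} [Field F] [Field Ω] [Field M]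
  [Field B] [Algebra K F] [Algebra F Ω] [Algebra K Ω] [IsScalarTower K F Ω] [Algebra F M]
  [Algebra K M] [IsScalarTower K F M] [Algebra K B] [IsAlgClosure F Ω] [IsAlgClosure K B]

open scoped Classical in
theorem sec_near {a b : K} (hE : ShortInt (sw a b)) {n : ℕ} {M0 : ℕ} (hM1 : 1 ≤ M0)
    (hM : ShaKilledBy (sw a b) M0)
    (S : Set (MvPolynomial (Fin n × Fin 3) K)) (hS : ∀ f ∈ S, ∃ d, MultiHom d f)
    (U : Set (ValuationSubring F)) (hU : ∀ O ∈ U, ∀ c : K, algebraMap K F c ∈ O)
    (e : M →ₐ[F] Ω) (he : unramified F Ω U ≤ e.fieldRange)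
    (P : Fin n → ((sw a b).baseChange F).toAffine.Point)
    (hPS : OnX S (fun i => crd (P i))) (s : GalSection K F M B)
    (p : ∀ v : HeightOneSpectrum (𝓞 K), Plc K M (AlgebraicClosure (v.adicCompletion K)))
    (hp : ∀ v, s.GivenBy (v.adicCompletion K) (p v)) (N : ℕ) (hN : 1 ≤ N) :
    ∃ (y : Fin n → SPt a b) (Pv : ∀ v : HeightOneSpectrum (𝓞 K), Fin n →
      ((sw a b).baseChange (v.adicCompletion K)).toAffine.Point),
      (∀ v, OnX S (fun i => crd (Pv v i))) ∧ ∀ v i,
      ∃ z, Pv v i - locHom (L := v.adicCompletion K) (sw a b) (y i) = N • z := by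
  have hΩ1 : IsAlgClosed Ω := IsAlgClosure.isAlgClosed F
  have hΩ2 : Algebra.IsAlgebraic F Ω := IsAlgClosure.isAlgebraic
  have hMalg : Algebra.IsAlgebraic F M := Algebra.IsAlgebraic.of_injective e e.injective
  have hD : 4 * a ^ 3 + 27 * b ^ 2 ≠ 0 := hE.disc
  have hcΩ : CharZero Ω := charZero_of_injective_algebraMap (algebraMap K Ω).injective
  have hcv : ∀ v : HeightOneSpectrum (𝓞 K), CharZero (v.adicCompletion K) := fun v =>
    charZero_of_injective_algebraMap (algebraMap K (v.adicCompletion K)).injective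
  have hcv' : ∀ v : HeightOneSpectrum (𝓞 K), CharZero (AlgebraicClosure (v.adicCompletion K)) :=
    fun v => charZero_of_injective_algebraMap
      (algebraMap (v.adicCompletion K) (AlgebraicClosure (v.adicCompletion K))).injective
  set A := toSAct s with hA
  have hpl : ∀ v, GeoPlc A (p v) := by
    intro v σ τ hστ x
    refine hp v σ ((eqv K B).autCongr τ) ?_ x _ ⟨x.2, rfl⟩
    intro z c hc
    obtain ⟨y, rfl⟩ := (eqv K B).surjective z
    have e1 : (p v).val (A.j y) ((p v).iot A.j y) := Plc.val_j _ y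
    have e2 : (p v).val (A.j (τ y)) ((p v).iot A.j (τ y)) := Plc.val_j _ (τ y)
    have e3 : s.j ((eqv K B).autCongr τ (eqv K B y)) = A.j (τ y) := by
      change s.j (eqv K B (τ ((eqv K B).symm (eqv K B y)))) = _
      rw [AlgEquiv.symm_apply_apply]
      rfl
    have e4 : (p v).iot A.j y = c := e1.unique hc
    rw [e3, ← e4, ← hστ y]
    exact e2
  have hAF : ∀ (τ : AlgebraicClosure K ≃ₐ[K] AlgebraicClosure K) (x : F),
      A.s τ (algebraMap F M x) = algebraMap F M x :=
    fun τ x => (s.s ((eqv K B).autCongr τ)).commutes x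
  set P' : Fin n → ((sw a b).baseChange M).toAffine.Point :=
    fun i => pm (sw a b) (IsScalarTower.toAlgHom K F M) (P i) with hP'
  have hP'S : OnX S (fun i => crd (P' i)) := onX_pm _ hPS
  have hP'f : ∀ i τ, A.pt a b τ (P' i) = P' i := by
    intro i τ
    change pm (sw a b) _ (pm (sw a b) _ (P i)) = pm (sw a b) _ (P i)
    rw [pm_pm]
    congr 2
    apply AlgHom.ext
    intro x
    exact hAF τ x
  choose red h1 h2 using fun v => exists_redM (p v) hD
  exact points_loc hM1 hM S hS A P' hP'S hP'f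
    (fun N hN i => exists_div_unram hD ((e.restrictScalars K).comp A.j) U hU e he (P i) hN)
    (fun N hN T hT => torsion_mem_sub hD (e.restrictScalars K) A.j N hN T hT) p hpl red h1 h2
    N hN

end sec

end Pool.Agent.Y213.T6
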